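import Pool.Agent.Run7.h480.BF.Defs

/-!
Project BF (problem MP_b9d149_co), interface. Every piece is a closed proposition `S_XXX`; its
proof is in the comment. A piece is delivered as `theorem t_XXX : S_XXX` (from nothing), or
`theorem t_XXX : S_A → S_B → S_XXX` when the comment says (from ...).

Notation: `Ini M w` = bases of `M` of minimal `w`-weight; `cn M K` = cone of all `x` with
`K ⊆ Ini M x`; `ne F` = `-1_F`, `wt (ne F) B = -|B ∩ F|`; `tan σ v` tangent cone; `star S v` star fan;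
`Car S x κ`: `κ` is the smallest cone of `S` containing `x`; `lin S` lineality space.
Useful trivial facts: `wt` is additive and homogeneous in `w`; if `Ini M x ∩ Ini M y` is nonempty then
`Ini M (s x + t y) = Ini M x ∩ Ini M y` for `s, t > 0`; for `x, y` with `Ini M y ⊆ Ini M x` the points
`(1 - t) x + t y`, `0 < t ≤ 1`, have `Ini = Ini M y` (for `t < 1` because `Ini M x ∩ Ini M y = Ini M y`);
every base of minimal weight exists, so `Ini M w` is never empty; membership in `berg M` and in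
`cn M K` (for `K` a set of bases, `x ∈ cn M K ↔ K ⊆ Ini M x`) depends only on `Ini M x` (by `S_BERG`).
-/

set_option autoImplicit false

open Set Module Filter Topology

namespace Run7.h480.BF

/-! ## Polyhedral cones and fans (no matroids) -/

/-- **FAC**, faces of a polyhedral cone. Proof. First part: the set `Ff f y` is the face given by
`g = ∑_{i ∈ Zf f y} f i`. Span: `⊆` clear; if `v ∈ Kf f (Zf f y)` then `y + ε v ∈ Ff f y` for small
`ε > 0` (`f i (y + ε v) ≥ 0` for the finitely many `i` with `f i y > 0`, `= 0` for the others), so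
`v = ε⁻¹ ((y + ε v) - y)`. Second part: let `τ = {x ∈ Cf f | g x = 0}`; among the points of `τ`
(`0 ∈ τ`) take `z` with `(Zf f z).ncard` minimal. For `x ∈ τ`: `z + x ∈ τ` and
`Zf f (z + x) = Zf f z ∩ Zf f x`, so `Zf f z ⊆ Zf f x` by minimality. Conversely if `x ∈ Cf f` and
`Zf f z ⊆ Zf f x`, then `z - ε x ∈ Cf f` for small `ε > 0`, so `0 ≤ g (z - ε x) = -ε g x`, `g x = 0`. -/
def S_FAC : Prop := ∀ (E : Type) [Fintype E] (n : ℕ) (f : Fin n → ((E → ℝ) →ₗ[ℝ] ℝ)),
    (∀ y ∈ Cf f, IsFace (Ff f y) (Cf f) ∧ Submodule.span ℝ (Ff f y) = Kf f (Zf f y)) ∧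
    (∀ τ, IsFace τ (Cf f) → ∃ z ∈ τ, τ = Ff f z)

/-- **POL1**: every point of a polyhedral cone outside the face `{f i = 0, i ∈ T}` has a ray outside
this face in its face. Proof. Write `c = finrank (Kf f univ)`, `C = Cf f`,
`τ = {z ∈ C | ∀ i ∈ T, f i z = 0}`, `L = Kf f univ ⊆ τ`. Note: `Zf f x ⊆ Zf f y`, `x, y ∈ C` gives
`Df f y ≤ Df f x`, with `<` if the inclusion is strict (for `i ∈ Zf f y` not in `Zf f x` the point `x`
is in `Kf f (Zf f x)` but not in `ker (f i)`). Strong induction on `Df f x`. As `x ∉ τ`, `x ∉ L`, so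
`Df f x ≥ c + 1` (`L ⊆ Kf f (Zf f x) ∋ x`). If `= c + 1` take `y = x`. Otherwise choose a vector `v`
in `Kf f (Zf f x)` outside `L + ℝ x` (dimension count). The line `x + s v` cannot stay in `C` for all
`s ∈ ℝ` (otherwise all `f i v = 0`), replace `v` by `-v` so that it leaves for `s → +∞`: some
`f i v < 0`. Let `s₀ = min_{i : f i v < 0} (f i x / (-f i v)) > 0` (positive because `f i v ≠ 0` implies
`i ∉ Zf f x`), `y₁ = x + s₀ v ∈ C`; `Zf f y₁` is strictly larger than `Zf f x`. If `y₁ ∉ τ`, induction.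
If `y₁ ∈ τ`: `y₁ ∉ L` (else `v ∈ L + ℝ x`). Let `s₁ = min_{i : f i y₁ > 0} (f i x / f i y₁)` (the set is
nonempty as `y₁ ∉ L`, and `Zf f x ⊆ Zf f y₁` shows `s₁ > 0`), `y₂ = x - s₁ y₁ ∈ C` (for `i` with
`f i y₁ = 0` the value is `f i x`). `Zf f x ⊊ Zf f y₂`, and `y₂ ∉ τ` because for `i ∈ T`
`f i y₂ = f i x`. Induction. -/
def S_POL1 : Prop := ∀ (E : Type) [Fintype E] (n : ℕ) (f : Fin n → ((E → ℝ) →ₗ[ℝ] ℝ))
    (T : Set (Fin n)) (x : E → ℝ), x ∈ Cf f → (∃ i ∈ T, f i x ≠ 0) →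
    ∃ y ∈ Cf f, (∃ i ∈ T, f i y ≠ 0) ∧ Zf f x ⊆ Zf f y ∧ Df f y = finrank ℝ (Kf f univ) + 1

/-- The relation of `S_POL2`. -/
def PRel {E : Type} [Fintype E] {n : ℕ} (f : Fin n → ((E → ℝ) →ₗ[ℝ] ℝ)) (T : Set (Fin n))
    (a b : E → ℝ) : Prop :=
  (a ∈ Cf f ∧ Df f a = finrank ℝ (Kf f univ) + 1 ∧ ∃ i ∈ T, f i a ≠ 0) ∧
  (b ∈ Cf f ∧ Df f b = finrank ℝ (Kf f univ) + 1 ∧ ∃ i ∈ T, f i b ≠ 0) ∧
  ∃ u ∈ Cf f, Df f u ≤ finrank ℝ (Kf f univ) + 2 ∧ Zf f u ⊆ Zf f a ∧ Zf f u ⊆ Zf f b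

/-- **POL2** (from `S_POL1`): the rays of a polyhedral cone outside a face are connected through faces
of dimension two (mod lineality). Notation of `S_POL1`; a point is good if it is in `C` and not in
`τ`; a good ray is a good `z` with `Df f z = c + 1`. Strong induction on `Df f (x + y)`; note
`Zf f (x + y) = Zf f x ∩ Zf f y`. If `Df f (x + y) ≤ c + 2` take `u = x + y`. Let now
`Df f (x + y) ≥ c + 3`, `Φ = Ff f (x + y)`. Choice of `z₀ ∈ Φ`: if some point of `τ ∩ Φ` is not in `L`,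
let `z₀ ∈ τ ∩ Φ` be one with `Zf f z₀` of minimal cardinality among the points of `τ ∩ Φ`, so
`Zf f z₀ ⊆ Zf f z` for all `z ∈ τ ∩ Φ` (consider `z₀ + z`); then `z₀ ∉ L`, and
`(*)` a point `z ∈ Φ` with `Zf f z₀ ⊆ Zf f z` is in `τ` [replace `T` by: for `i ∈ T`, `f i z₀ = 0`, so
`T ⊆ Zf f z₀ ⊆ Zf f z`]. Otherwise (`τ ∩ Φ ⊆ L`) choose `v ∈ Kf f (Zf f (x+y))` outside
`L + ℝ x + ℝ y` and `z₀ = x + y + ε v`, `ε > 0` small, so that `z₀ ∈ Φ`, `Zf f z₀ = Zf f (x + y)`.
For `t ∈ [0,1]` put `z_t = (1-t) x + t y`, `I = {i | f i z₀ > 0}` (nonempty),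
`s(t) = min_{i ∈ I} f i z_t / f i z₀ ≥ 0`, `e(t) = z_t - s(t) z₀ ∈ Φ`. Facts: (a) `e(t) ∉ τ`: first
case: `z_t ∉ τ` (`x ∉ τ`, `y ∉ τ`, all `f i ≥ 0`), so there is `i ∈ T` with `f i z_t > 0`, and
`f i z₀ = 0` gives `f i (e t) > 0`; second case: otherwise `e(t) ∈ L`, so `s(t) z₀ ∈ L + ℝx + ℝy`, so
`s(t) = 0` and `z_t = e(t) ∈ L ⊆ τ`, impossible. (b) `Zf f (e t) ⊋ Zf f (x+y)` (it contains the `i` of
the minimum, which is in `I`, and `Zf f (x + y) ⊆ Zf f z₀` is disjoint from `I`), so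
`Df f (e t) < Df f (x + y)`. (c) `s(0) = 0`: first case: if `s(0) > 0` then `Zf f x ⊆ Zf f z₀` (as
`x = e(0) + s(0) z₀`), `z₀ ∉ L`, so `Df f z₀ = c + 1 = Df f x`, `Zf f z₀ = Zf f x`, `x ∈ τ`, a
contradiction; second case: `Df f x < Df f (x+y)` so some `i ∈ Zf f x` is not in
`Zf f (x+y) = Zf f z₀`, `i ∈ I`, `s(0) = 0`. In the same way `s(1) = 0`: `e(0) = x`, `e(1) = y`.
For `i ∈ I` let `J_i = {t ∈ [0,1] | s(t) = f i z_t / f i z₀}`, closed, and these sets cover `[0,1]`.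
If `t, t' ∈ J_i` and `a, b` are good rays with `Zf f (e t) ⊆ Zf f a`, `Zf f (e t') ⊆ Zf f b`, then
`Zf f (a + b)` contains `i` and `Zf f (x+y)`, so `Df f (a + b) < Df f (x + y)` and `a, b` are linked
by induction. Let `A` be the set of all `t ∈ [0,1]` such that all good rays `a` with
`Zf f (e t) ⊆ Zf f a` are linked with `x`; such `a` exist for every `t` by `S_POL1`. So `A` is the
union of some of the `J_i` and its complement in `[0,1]` the union of the others [if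
`t ∈ J_i`, `t ∈ A` then `J_i ⊆ A`]; `0 ∈ A`; `[0,1]` is preconnected, so `1 ∈ A`. -/
def S_POL2 : Prop := ∀ (E : Type) [Fintype E] (n : ℕ) (f : Fin n → ((E → ℝ) →ₗ[ℝ] ℝ))
    (T : Set (Fin n)) (x y : E → ℝ), x ∈ Cf f → y ∈ Cf f →
    Df f x = finrank ℝ (Kf f univ) + 1 → Df f y = finrank ℝ (Kf f univ) + 1 →
    (∃ i ∈ T, f i x ≠ 0) → (∃ i ∈ T, f i y ≠ 0) → Relation.ReflTransGen (PRel f T) x y

/-- **FAN** (from `S_FAC`), generalities on fans. Proof. (a) `κ` = intersection of the (finitely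
many) `σ ∈ S` with `x ∈ σ`; an intersection of cones of `S` is in `S` (`inter`, `face`). (b) write
`κ = Cf f` and take `x` with `κ = Ff f x` (`S_FAC`, `κ` is a face of itself, `g = 0`): if `x ∈ σ ∈ S`,
then `κ ∩ σ` is a face of `κ`, so `= Ff f z`, and `x ∈ Ff f z` gives `Zf f z ⊆ Zf f x`, hence
`κ = Ff f x ⊆ Ff f z`. (c) `σ = τ ∩ σ` is a face of `τ = Cf f`, given by `g`; if `σ ≠ τ` then `g` is
not zero on `τ`, but zero on `span σ`, so `span σ < span τ`. (d) for `σ = Cf f ∈ S` the set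
`{v ∈ σ | -v ∈ σ} = Kf f univ` is the face `Ff f 0`, so it is in `S`; a face of a cone contains it;
so for `σ, τ ∈ S` it is contained in `σ ∩ τ`, hence these sets are the same for all `σ ∈ S` and equal
to `lin S`. (e) if `κ = Cf f` and `y ∈ κ` then `Ff f y ∈ S` by `face`; it is the carrier as in (b). -/
def S_FAN : Prop := ∀ (E : Type) [Fintype E] (S : Set (Set (E → ℝ))), IsFan S → S.Nonempty →
    (∀ x ∈ ⋃₀ S, ∃ κ, Car S x κ) ∧ (∀ κ ∈ S, ∃ x, Car S x κ) ∧
    (∀ σ ∈ S, ∀ τ ∈ S, σ ⊆ τ → dim σ = dim τ → σ = τ) ∧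
    (lin S ∈ S ∧ ∀ σ ∈ S, lin S ⊆ σ ∧ {v | v ∈ σ ∧ -v ∈ σ} = lin S) ∧
    (∀ (n : ℕ) (f : Fin n → ((E → ℝ) →ₗ[ℝ] ℝ)), Cf f ∈ S → ∀ y ∈ Cf f,
      Car S y (Ff f y) ∧ dim (Ff f y) = Df f y ∧ dim (lin S) = finrank ℝ (Kf f univ))

/-- **RAY** (from `S_FAC`, `S_FAN`, `S_POL1`). Proof: `κ = Cf f`; `κ ∩ T` is a face of `κ`, so
`κ ∩ T = Ff f z` for some `z`; put `T' = Zf f z`. A point `x ∈ κ` is not in `T` iff some `i ∈ T'` has
`f i x ≠ 0`. Take `x ∈ κ`, `x ∉ T`, `y` from `S_POL1`, `ρ = Ff f y`. -/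
def S_RAY : Prop := ∀ (E : Type) [Fintype E] (S : Set (Set (E → ℝ))), IsFan S →
    ∀ T ∈ S, ∀ κ ∈ S, ¬ κ ⊆ T → ∃ ρ ∈ S, ρ ⊆ κ ∧ dim ρ = dim (lin S) + 1 ∧ ¬ ρ ⊆ T

/-- **EDGE** (from `S_FAC`, `S_FAN`, `S_POL2`). Proof as `S_RAY`: a cone `ρ ∈ S`, `ρ ⊆ κ = Cf f`, is
`Ff f x` for `x` with `Car S x ρ`, and `dim ρ = Df f x`. Map `a ↦ Ff f a`, `PRel f T' a b` implies
`Link S T (Ff f a) (Ff f b)` with `u ↦ Ff f u`. -/
def S_EDGE : Prop := ∀ (E : Type) [Fintype E] (S : Set (Set (E → ℝ))), IsFan S →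
    ∀ T ∈ S, ∀ κ ∈ S, ∀ ρ ∈ S, ∀ ρ' ∈ S, ρ ⊆ κ → ρ' ⊆ κ → dim ρ = dim (lin S) + 1 →
    dim ρ' = dim (lin S) + 1 → ¬ ρ ⊆ T → ¬ ρ' ⊆ T → Relation.ReflTransGen (Link S T) ρ ρ'

/-- **STF** (from `S_FAC`, `S_FAN`), the star fan. For `σ = Cf f` and `v ∈ σ` one has
`tan σ v = {x | ∀ i ∈ Zf f v, 0 ≤ f i x}`, a polyhedral cone containing `σ` (`v + x ∈ σ`) and
`span (tan σ v) = span σ` (`x = ε⁻¹ ((v + ε x) - v)`). Faces of `tan σ v`: given by `g`; then
`g v = 0` (`v` and `-v` are in `tan σ v`) and `g ≥ 0` on `σ`, so `τ = {x ∈ σ | g x = 0}` is a face of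
`σ` containing `v`, and the face is `tan τ v`. Intersections: `tan σ v ∩ tan τ v = tan (σ ∩ τ) v`
(convexity: smaller `ε` are allowed), and if `σ ∩ τ` is the face of `σ` given by `g` then
`g v = 0` and `tan (σ ∩ τ) v` is the face of `tan σ v` given by `g` (for `x ∈ tan σ v`,
`g (v + ε x) = ε g x ≥ 0`). Inclusions: if `tan σ v ⊆ tan τ v`: take `x` with `Car S x σ`; `x ∈ tan σ v`
(`v + x ∈ σ`), so `v + ε x ∈ τ` for some `ε > 0`; `v + ε x ∈ σ ∩ τ`, a face of `σ`, so `x ∈ τ` and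
`σ ⊆ τ`. Lineality: `lin (star S v) = {y ∈ tan κ v | -y ∈ tan κ v}` (`S_FAN`, `κ` any cone of
`S` containing `v`); for the carrier `κ` of `v`, `κ = Cf f = Ff f v` all `i ∈ Zf f v` vanish on `κ`, so
`tan κ v = Kf f (Zf f v) = span κ`. -/
def S_STF : Prop := ∀ (E : Type) [Fintype E] (S : Set (Set (E → ℝ))), IsFan S → ∀ v ∈ ⋃₀ S,
    IsFan (star S v) ∧ (∀ σ ∈ S, v ∈ σ → dim (tan σ v) = dim σ) ∧
    (∀ σ ∈ S, ∀ τ ∈ S, v ∈ σ → v ∈ τ → (tan σ v ⊆ tan τ v ↔ σ ⊆ τ)) ∧
    (∀ κ, Car S v κ → dim (lin (star S v)) = dim κ)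

/-- **STC** (from `S_FAC`, `S_FAN`): two points with the same carrier have the same star. Proof:
let `κ` be the carrier of `v` and of `w`. `σ ∈ S` contains `v` iff `κ ⊆ σ` iff it contains `w`; write
`σ = Cf f`, then `tan σ v = {x | ∀ i ∈ Zf f v, 0 ≤ f i x}` and `Ff f v = κ = Ff f w` by `S_FAN`, which
gives `Zf f v = Zf f w`. -/
def S_STC : Prop := ∀ (E : Type) [Fintype E] (S : Set (Set (E → ℝ))), IsFan S →
    ∀ v w κ, Car S v κ → Car S w κ → star S v = star S w

/-! ## Matroids -/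

/-- **BERG**. Proof. `→`: let `e` be given, `B ∈ Ini M w` (finite), `e ∉ B`, `C` the fundamental
circuit of `e` in `B`. As the maximum on `C` is attained twice there is `f ∈ C`, `f ≠ e`, with
`w e ≤ w f`; `B - f + e` is a base of weight `≤ wt w B`, so it is in `Ini M w`. `←`: let `C` be a
circuit, `e ∈ C` with `w e` maximal, `B ∈ Ini M w` with `e ∈ B`. `e ∈ cl (C \ e)`, `e ∉ cl (B \ e)`, so
some `g ∈ C \ e` is not in `cl (B \ e)`, `B - e + g` is a base, so `w e ≤ w g`. -/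
def S_BERG : Prop := ∀ (E : Type) [Fintype E] (M : Matroid E) (r : ℕ), OK M r →
    ∀ w : E → ℝ, w ∈ berg M ↔ ∀ e, ∃ B ∈ Ini M w, e ∈ B

/-- **MAT** (from `S_BERG`), initial matroids. Proof: exchange property of `Ini M w`: for
`B₁, B₂ ∈ Ini M w`, `e ∈ B₁ \ B₂` let `C` be the fundamental circuit of `e` in `B₂`; `e ∈ cl (C \ e)`,
`e ∉ cl (B₁ \ e)`, so there is `f ∈ C \ e`, `f ∉ cl (B₁ \ e)`; then `f ∈ B₂ \ B₁` and both `B₁ - e + f`
and `B₂ - f + e` are bases; the sum of their weights is `wt w B₁ + wt w B₂`, so both are minimal.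
(`Matroid.ofBaseOfFinite` or the like.) Loopless by `S_BERG`. -/
def S_MAT : Prop := ∀ (E : Type) [Fintype E] (M : Matroid E) (r : ℕ), OK M r →
    ∀ w ∈ berg M, ∃ N : Matroid E, OK N r ∧ IniMat M N w

/-- **LOC** (from `S_BERG`). Proof: there are finitely many bases; for small `t > 0` the bases of
minimal `(w + t x)`-weight are the members of `Ini M w` of minimal `x`-weight. -/
def S_LOC : Prop := ∀ (E : Type) [Fintype E] (M N : Matroid E) (r : ℕ), OK M r → OK N r →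
    ∀ w ∈ berg M, IniMat M N w → ∀ x : E → ℝ, ∃ ε : ℝ, 0 < ε ∧ ∀ t : ℝ, 0 < t → t ≤ ε →
      Ini M (w + t • x) = Ini N x ∧ (w + t • x ∈ berg M ↔ x ∈ berg N)

/-- **LEV** (from `S_BERG`), level sets. Proof. (a) `ne F ∈ berg M ↔ M.IsFlat F`: `→` if
`e ∈ cl F \ F`, take a circuit `C` with `e ∈ C ⊆ insert e F`: the maximum of `ne F` on `C` is `0`,
attained only at `e`. `←`: if the maximum of `ne F` on the circuit `C` is attained only once, at `e`,
then (a circuit has at least two elements) it is `0` and `C \ e ⊆ F`, so `e ∈ cl F = F`, a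
contradiction. (b) for `x ∈ berg M` and `t : ℝ` the set `F = {i | x i ≤ t}` is a flat (same
argument), and `Ini M x ⊆ Ini M (ne F)`: let `B ∈ Ini M x` with `|B ∩ F|` not the rank of `F`; then
some `e ∈ F` is not in `cl (B ∩ F)`, in particular `e ∉ B`, so the fundamental circuit of `e` in `B`
contains some `f ∈ B \ F`, `x f > t ≥ x e`, and `B - f + e` has smaller weight.
(c) let `K ≠ ∅` be a set of bases, `x ∈ berg M`, `x ∉ cn M K`. Then some `F = {i | x i ≤ t}` has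
`ne F ∉ cn M K`: `x` is a constant vector plus a nonnegative combination of such `ne F` (`t` the values of
`x`, layer cake), constant vectors `c` give all bases the weight `c r`, and `cn M K` is closed
under sums and nonnegative multiples. -/
def S_LEV : Prop := ∀ (E : Type) [Fintype E] (M : Matroid E) (r : ℕ), OK M r →
    (∀ F : Set E, ne F ∈ berg M ↔ M.IsFlat F) ∧
    (∀ x ∈ berg M, ∀ t : ℝ, M.IsFlat {i | x i ≤ t} ∧ Ini M x ⊆ Ini M (ne {i | x i ≤ t})) ∧
    (∀ K : Set (Set E), K.Nonempty → (∀ B ∈ K, M.IsBase B) → ∀ x ∈ berg M, x ∉ cn M K →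
      ∃ t : ℝ, ne {i | x i ≤ t} ∉ cn M K)

/-- **SAME** (from `S_LEV`): a loopless matroid is determined by its Bergman fan (by its flats). -/
def S_SAME : Prop := ∀ (E : Type) [Fintype E] (M N : Matroid E) (r : ℕ), OK M r → OK N r →
    berg M = berg N → ∀ B, M.IsBase B ↔ N.IsBase B

/-- **FLAT**, the heart: the flats outside a cone are connected by comparabilities.
Let `K` be a nonempty set of bases covering `E`. Call a set `F` tight if `ne F ∈ cn M K`, that is
`|B' ∩ F| ≤ |B ∩ F|` for all `B ∈ K` and all bases `B'`; equivalently `|B ∩ F| = rank F` for all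
`B ∈ K`. (1) Tight sets are closed under `∪` and `∩`: for `B ∈ K`,
`|B∩(F∪G)| + |B∩F∩G| = |B∩F| + |B∩G| = rk F + rk G ≥ rk (F∪G) + rk (F∩G) ≥ |B∩(F∪G)| + |B∩F∩G|`.
`∅` and `E` are tight. (2) Tight sets are flats: for `x ∈ cl F \ F` take `B ∈ K` with `x ∈ B`, then
`rk F = |B ∩ F| < |B ∩ insert x F| ≤ rk F`. Call a flat good if it is not tight. (3) Every good flat
contains a good point (`p = cl {e}`, `e ∈ F`): otherwise `F` is the union of the tight sets `cl {e}`.
(4) Let `p, q` be good points, `p ≠ q`, `L = cl (p ∪ q)`, of rank 2. If `L` is good: `p ⊆ L ⊇ q`. If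
`L` is tight: for every `s ∉ L` the flat `A = cl (p ∪ {s})` is good, because `A ∩ L` is a flat of
rank 1 containing `p`, so `= p`, and if `A` were tight `p = A ∩ L` would be tight; in the same way
`A' = cl (q ∪ {s})` is good. If `cl {s}` is good: `p ⊆ A ⊇ cl {s} ⊆ A' ⊇ q`. (5) It remains to
exclude that `L` is tight and `cl {s}` is tight for all `s ∉ L`. Then `E \ L` is the disjoint union of
tight points `S_1, …, S_m` (`cl {s} ∩ L = ∅` since `L` is a flat and `s ∉ L`). For `B ∈ K`: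
`r = |B| = |B ∩ L| + ∑ |B ∩ S_i| = 2 + m`. For every base `B'`: `|B' ∩ L| ≤ 2`, `|B' ∩ S_i| ≤ 1` and
the sum is `r = 2 + m`, so equality everywhere. So the indicator vectors of `L, S_1, …, S_m` are in
`LinK {B | M.IsBase B}`; they are linearly independent (disjoint nonempty supports), so its dimension
is at least `m + 1 = r - 1`, a contradiction to the hypothesis `… + 2 ≤ r`. -/
def S_FLAT : Prop := ∀ (E : Type) [Fintype E] (M : Matroid E) (r : ℕ), OK M r →
    finrank ℝ (LinK {B | M.IsBase B}) + 2 ≤ r →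
    ∀ K : Set (Set E), K.Nonempty → (∀ B ∈ K, M.IsBase B) → (∀ e, ∃ B ∈ K, e ∈ B) →
    ∀ F G : Set E, M.IsFlat F → M.IsFlat G → ne F ∉ cn M K → ne G ∉ cn M K →
    Relation.ReflTransGen (Cmp M K ne) F G

/-- **GOOD** (from `S_BERG`, `S_LEV`, `S_FLAT`). Proof: `X = berg M \ cn M (Ini M w)`. For `x ∈ X` let
`F` be a level set with `ne F ∉ cn M K` (`S_LEV`); the segment from `x` to `ne F` is in `X`: at
`(1-t) x + t ne F`, `0 < t < 1`, the set `Ini M` is `Ini M x ∩ Ini M (ne F) = Ini M x`. For flats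
`F ⊆ G` with `ne F, ne G ∉ cn M K` the segment from `ne F` to `ne G` is in `X`: with
`y = ne F + ne G` one has `y ∈ berg M` (for instance a base of `F` extended to a base of `G` and of `M`,
through a given element `e`, shows that `Ini M (ne F) ∩ Ini M (ne G) ≠ ∅` covers `E`, `S_BERG`), and
the interior points `z` of the segment have `Ini M z = Ini M (ne F) ∩ Ini M (ne G)`, which does not
contain `K`. Now `S_FLAT` and `IsPreconnected` of chains of segments (`JoinedIn`). -/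
def S_GOOD : Prop := ∀ (E : Type) [Fintype E] (M : Matroid E) (r : ℕ), OK M r →
    finrank ℝ (LinK {B | M.IsBase B}) + 2 ≤ r → ∀ w ∈ berg M,
    IsPreconnected (berg M \ cn M (Ini M w))

/-- **DIMK** (from `S_MAT`). Proof: let `N` be the initial matroid, `B₀` a base of `N`. Restriction to
`B₀` is injective on `LinK (Ini M x)`: let `v` vanish on `B₀`, `e ∉ B₀`; the fundamental circuit of `e`
in `B₀` (in `N`, `e` is not a loop) contains some `f ∈ B₀`, `B₀ - f + e ∈ Ini M x`, so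
`v e = v f = 0`. -/
def S_DIMK : Prop := ∀ (E : Type) [Fintype E] (M : Matroid E) (r : ℕ), OK M r → ∀ x ∈ berg M,
    finrank ℝ (LinK (Ini M x)) ≤ r

/-- **TWO** (from `S_BERG`, `S_MAT`, `S_LOC`, `S_LEV`). Proof: let `N` be the initial matroid at `x`,
`K = Ini M w`. Suppose that `K ⊆ Ini M y` for all `y ∈ berg M` with `Ini M y ⊆ Ini M x`. Then
`K ⊆ Ini M x` (the bases of `N`), and for every flat `F` of `N`, `y = x + t ne F`, `t` small
(`S_LOC`, `S_LEV`), gives `K ⊆ Ini N (ne F)`. Fix `B₀ ∈ K`. For every `e`, `P_e = cl_N {e}` has rank 1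
in `N`, so `|B₀ ∩ P_e| = 1` (some base contains `e`). So `E` is the disjoint union of the `r` sets
`P_b`, `b ∈ B₀`. Every base `B'` of `N` has `|B' ∩ P_b| ≤ 1` and `r` elements, so `= 1`. So the
indicators of the `P_b` are in `LinK (Ini M x)`; they are linearly independent, so its dimension is
`≥ r`, a contradiction. -/
def S_TWO : Prop := ∀ (E : Type) [Fintype E] (M : Matroid E) (r : ℕ), OK M r →
    ∀ x ∈ berg M, finrank ℝ (LinK (Ini M x)) < r → ∀ w ∈ berg M,
    ∃ y ∈ berg M, Ini M y ⊆ Ini M x ∧ ¬ Ini M w ⊆ Ini M y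

/-- **MAX** (from `S_TWO`, `S_DIMK`). Proof: `Ini M x` is finite; while the dimension is `< r` use
`S_TWO` with `w = x` to make `Ini M x` strictly smaller. -/
def S_MAX : Prop := ∀ (E : Type) [Fintype E] (M : Matroid E) (r : ℕ), OK M r →
    ∀ x ∈ berg M, ∃ y ∈ berg M, Ini M y ⊆ Ini M x ∧ finrank ℝ (LinK (Ini M y)) = r

/-- **NONI** (from `S_LEV`). Proof: it is enough that `v` is constant on circuits (they have at least
two elements). Let `f, g ∈ C`, `v f < v g`, `F = cl (C \ {f, g})`; `f, g ∉ F` (`C \ g` and `C \ f` are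
independent). `x = m ne F ∈ berg M` for every `m > 0`; for large `m` the vector `x + v` has on `C`
the unique maximum `v g`. -/
def S_NONI : Prop := ∀ (E : Type) [Fintype E] (M : Matroid E) (r : ℕ), OK M r →
    ∀ v : E → ℝ, (∀ x ∈ berg M, x + v ∈ berg M) → -v ∈ berg M

/-! Complements of closed convex cones `T` contained in a coarse cone `C = cn M (Ini M w) ⊆ berg M`.
Write `L = LinK {B | M.IsBase B}`, `c = dim L ≤ r`. Facts: `L ⊆ C`, and `{u | u ∈ C ∧ -u ∈ C} = L`;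
for every `y` and `u ∈ L`: `Ini M (y + u) = Ini M y`; `y ∈ LinK (Ini M y)` for every `y`; if `x ∈ C` and
`dim LinK (Ini M x) = r` then `LinK (Ini M x) = LinK (Ini M w) =: W` (`Ini M w ⊆ Ini M x` and
`S_DIMK`), and `C ⊆ W`. A polyhedral cone is closed and convex, so a point outside `T` can be
separated: there is a linear `g` with `g x > 0 ≥ g` on `T` (one of the inequalities defining `T`,
negated). -/

/-- **EXIT** (from `S_BERG`, `S_DIMK`). Proof: the set of the `s ≥ 0` with `x + s u ∈ C` is closed,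
and bounded (otherwise `u = lim (x + s u)/s ∈ C`); let `s₀` be its maximum, `b = x + s₀ u`. The
segment is in `C` (convex) and `g > 0` on it. If `dim LinK (Ini M b) = r` then
`LinK (Ini M b) = W ∋ u` (see above), all members of `Ini M b` have the same `u`-weight, and for small
`ε > 0`, `B ∈ Ini M w ⊆ Ini M b`, `B'` a base: `wt (b + ε u) B ≤ wt (b + ε u) B'` (equality for
`B' ∈ Ini M b`; for the finitely many other `B'` the inequality at `b` is strict). So
`b + ε u ∈ C`, a contradiction; so the dimension is `< r` by `S_DIMK`. -/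
def S_EXIT : Prop := ∀ (E : Type) [Fintype E] (M : Matroid E) (r : ℕ), OK M r →
    ∀ w ∈ berg M, ∀ T : Set (E → ℝ), ∀ x ∈ cn M (Ini M w), finrank ℝ (LinK (Ini M x)) = r →
    ∀ g : (E → ℝ) →ₗ[ℝ] ℝ, 0 < g x → (∀ y ∈ T, g y ≤ 0) → ∀ u ∈ LinK (Ini M w), 0 ≤ g u →
    u ∉ cn M (Ini M w) → ∃ b : E → ℝ, segment ℝ x b ⊆ cn M (Ini M w) \ T ∧
      finrank ℝ (LinK (Ini M b)) < r

/-- **TOPA** (from `S_BERG`, `S_GOOD`, `S_DIMK`, `S_TWO`, `S_EXIT`), the case `c + 2 ≤ r`.
`G = berg M \ C` is preconnected (`S_GOOD`), contained in `berg M \ T`. It is enough to join every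
`x ∈ C \ T` with a point of `G` inside `berg M \ T`. If `dim LinK (Ini M x) < r` take `y` from `S_TWO`:
the segment `]x, y]` consists of points with `Ini = Ini M y`, so it is in `berg M \ C`. Otherwise
separate, `g x > 0 ≥ g` on `T`. There is `u ∈ W` with `g u ≥ 0`, `u ∉ C`: if not,
`{u ∈ W | g u ≥ 0} ⊆ C`, so the hyperplane `{u ∈ W | g u = 0}` (dimension `≥ r - 1`) is in `L`, a
contradiction. Go to `b` by `S_EXIT`, then to `G` as before. -/
def S_TOPA : Prop := ∀ (E : Type) [Fintype E] (M : Matroid E) (r : ℕ), OK M r →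
    ∀ w ∈ berg M, ∀ T : Set (E → ℝ), IsPoly T → T ⊆ cn M (Ini M w) →
    finrank ℝ (LinK {B | M.IsBase B}) + 2 ≤ r → IsPreconnected (berg M \ T)

/-- **TOPB** (from `S_BERG`, `S_DIMK`, `S_TWO`, `S_EXIT`), the case `c = r - 1`. `L ⊄ T` by the
hypothesis on `T`; let `z ∈ L \ T`. Every `x ∈ berg M \ T` is joined with `z`: if `x ∉ C` by the
segment (`Ini` is constant on `[x, z[`, so the segment without `z` is in `berg M \ C`); if `x ∈ L` take
`y ∈ berg M \ C` (`S_TWO` at `x`, as `Ini M x` = all bases, dimension `c < r`) and go `x → y → z`; if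
`x ∈ C \ L` then `dim LinK (Ini M x) ≥ c + 1 = r` (it contains `x` and `L`). Separate,
`g x > 0 ≥ g` on `T`. If some `u ∈ W` has `g u ≥ 0`, `u ∉ C`, go to `b` (`S_EXIT`), where
`dim LinK (Ini M b) = c` (it contains `L`), so `b ∈ L`, and use the case before. If not,
`{u ∈ W | g u = 0} ⊆ L`, with equality by dimensions, and `C ∩ {g < 0} = ∅` (else `C = W` and
`W = L`), so `T ⊆ C ∩ {g ≤ 0} ⊆ L`, and the segment `[x, z]` is in `C \ T` (`x ∉ L`, `z ∈ L \ T`). -/
def S_TOPB : Prop := ∀ (E : Type) [Fintype E] (M : Matroid E) (r : ℕ), OK M r →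
    ∀ w ∈ berg M, ∀ T : Set (E → ℝ), IsPoly T → T ⊆ cn M (Ini M w) →
    finrank ℝ (LinK {B | M.IsBase B}) + 1 = r →
    finrank ℝ (Submodule.span ℝ {v | v ∈ T ∧ -v ∈ T}) + 2 ≤ r → IsPreconnected (berg M \ T)

/-- **TOPC** (from `S_BERG`, `S_DIMK`), the case `c = r`. Then `berg M = L` (`LinK (Ini M x)` has
dimension `≤ r` and contains `L` and `x`), a linear space of dimension `r`. For `x, y ∈ L \ T` take
`f, g` linear with `f x > 0 ≥ f` on `T`, `g y > 0 ≥ g` on `T`. If some `u ∈ L` has `f u > 0`,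
`g u > 0`, go `x → u → y` (segments, `f > 0` on the first, `g > 0` on the second). Otherwise
`g = -λ f` on `L`, `λ > 0`, and `T ⊆ {f = 0}`; `{f = 0} ∩ L` has dimension `≥ r - 1`, so by the
hypothesis on `T` there is `z ∈ L \ T` with `f z = 0`, and `h` with `h z > 0 ≥ h` on `T`; take
`u = z + ε x`, `u' = z - ε x`, `ε > 0` small: `f u > 0`, `h u > 0`, `f u' < 0` (so `g u' > 0`),
`h u' > 0`; go `x → u → u' → y`. -/
def S_TOPC : Prop := ∀ (E : Type) [Fintype E] (M : Matroid E) (r : ℕ), OK M r →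
    ∀ w ∈ berg M, ∀ T : Set (E → ℝ), IsPoly T → T ⊆ cn M (Ini M w) →
    finrank ℝ (LinK {B | M.IsBase B}) = r →
    finrank ℝ (Submodule.span ℝ {v | v ∈ T ∧ -v ∈ T}) + 2 ≤ r → IsPreconnected (berg M \ T)

/-- **TOP** (from `S_TOPA`, `S_TOPB`, `S_TOPC`, `S_DIMK`): put together (`c ≤ r` by `S_DIMK` at
`x = 0`). -/
def S_TOP : Prop := ∀ (E : Type) [Fintype E] (M : Matroid E) (r : ℕ), OK M r →
    ∀ w ∈ berg M, ∀ T : Set (E → ℝ), IsPoly T → T ⊆ cn M (Ini M w) →
    finrank ℝ (Submodule.span ℝ {v | v ∈ T ∧ -v ∈ T}) + 2 ≤ r → IsPreconnected (berg M \ T)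

/-! ## Fans on Bergman fans -/

/-- **STM** (from `S_LOC`, `S_FAC`, `S_FAN`). Proof: `x ∈ berg N` iff `v + t x ∈ berg M` for all small
`t > 0`. `⊆`: if `v ∈ σ`, `v + ε x ∈ σ`, then `v + t x ∈ σ ⊆ berg M` for `0 < t ≤ ε`. `⊇`: as `S` is
finite and its members are closed, some `σ ∈ S` contains `v + t x` for arbitrarily small `t > 0`,
hence contains `v`. -/
def S_STM : Prop := ∀ (E : Type) [Fintype E] (M N : Matroid E) (r : ℕ) (S : Set (Set (E → ℝ))),
    OK M r → OK N r → FanOn M S → ∀ v ∈ berg M, IniMat M N v → ⋃₀ (star S v) = berg N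

/-- **REF** (from `S_MAT`, `S_STM`, `S_STC`, `S_SAME`, `S_FAN`): every cone of `S` lies in a coarse
cone. Proof: let `w` with `Car S w σ`. If also `Car S w' σ` then `star S w = star S w'`, so the
initial matroids `N, N'` have `berg N = berg N'`, `Ini M w = Ini M w'`. For `x ∈ σ` and `t > 0`:
`x + t w ∈ σ` has carrier `σ` (if `x + t w ∈ τ ∈ S` then `σ ∩ τ` is a face of `σ`, so `w ∈ τ`,
`σ ⊆ τ`), so `Ini M (x + t w) = Ini M w`; let `t → 0`. -/
def S_REF : Prop := ∀ (E : Type) [Fintype E] (M : Matroid E) (r : ℕ) (S : Set (Set (E → ℝ))),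
    OK M r → FanOn M S → ∀ σ ∈ S, ∃ w ∈ σ, ∀ x ∈ σ, Ini M w ⊆ Ini M x

/-- **PURE** (from `S_REF`, `S_DIMK`, `S_MAX`, `S_FAN`). Proof: `dim σ ≤ r`: `σ ⊆ LinK (Ini M w)` for
`w` of `S_REF`. Facet: let `Car S v σ`, `y` from `S_MAX` for `v`, `W = LinK (Ini M y)`, `dim W = r`,
`C = cn M (Ini M y)`. `v ∈ C ⊆ berg M`. For `t > 0` the point `v + t y` has `Ini = Ini M y`, so it is an
interior point of `C` relative to `W` (the inequalities against the bases outside `Ini M y` are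
strict, and on `W` the others are equalities). Let `δ > 0` be such that the ball of radius `δ` at `v`
meets no cone of `S` which does not contain `v`. If all cones of `S` containing `v` had dimension
`< r`, a nonempty open subset of `W` would be covered by finitely many proper subspaces of `W`
(Baire, or: a finite union of proper subspaces has empty interior). So some `τ ∈ S` with `v ∈ τ` has
`dim τ = r`, and `σ ⊆ τ`. -/
def S_PURE : Prop := ∀ (E : Type) [Fintype E] (M : Matroid E) (r : ℕ) (S : Set (Set (E → ℝ))),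
    OK M r → FanOn M S → ∀ σ ∈ S, dim σ ≤ r ∧ ∃ τ, IsFacet r S τ ∧ σ ⊆ τ

/-- **LINK** (from `S_FAN`, `S_RAY`, `S_EDGE`, `S_REF`, `S_TOP`): the rays of `S` outside `T` are
linked. Proof: `X = berg M \ T` is preconnected by `S_TOP` (`w` from `S_REF` for `T`; `T` is polyhedral and
`{v ∈ T | -v ∈ T} = lin S`). Let `J` be the set of all `σ ∈ S` such that all rays `a ∈ S` with `a ⊆ σ`,
`¬ a ⊆ T` are linked with `ρ`. If `x ∈ X` is in `σ ∈ J` and in `σ' ∈ S`, its carrier `κ ⊄ T` contains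
a good ray (`S_RAY`), which is in `σ` and in `σ'`; by `S_EDGE` for `σ'` also `σ' ∈ J`. So `X` is
covered by the two closed sets `⋃ J` and `⋃ (S \ J)`, which are disjoint in `X`. `ρ` has a point
outside `T`, and `ρ ∈ J` (`S_EDGE` with `κ = ρ`), so all of `X` is in `⋃ J` and not in `⋃ (S \ J)`;
`ρ'` has a point of `X`, so `ρ' ∈ J`. -/
def S_LINK : Prop := ∀ (E : Type) [Fintype E] (M : Matroid E) (r : ℕ) (S : Set (Set (E → ℝ))),
    OK M r → FanOn M S → dim (lin S) + 2 ≤ r → ∀ T ∈ S, ∀ ρ ∈ S, ∀ ρ' ∈ S,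
    dim ρ = dim (lin S) + 1 → dim ρ' = dim (lin S) + 1 → ¬ ρ ⊆ T → ¬ ρ' ⊆ T →
    Relation.ReflTransGen (Link S T) ρ ρ'

/-- **CNT** (from `S_FAN`, `S_RAY`, `S_STF`, `S_STM`, `S_MAT`, `S_PURE`, `S_NONI`): there are at least
`r - dim u + 1` facets containing `u`. Proof. (I) Case `u = lin S`, by induction on `r - dim (lin S)`,
for all `M, S`. If `r = dim (lin S)`, `R = ∅`, use `S_PURE`. Otherwise there is a facet `σ`
(`S_PURE`), `σ ⊄ lin S`, so there is a ray `ρ ∈ S` (`S_RAY`, `T = lin S`). If some `τ ∈ R` does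
not contain `ρ`: let `Car S v ρ`, `N` the initial matroid at `v` (`S_MAT`), `S' = star S v`, a fan on
`berg N` with `dim (lin S') = dim (lin S) + 1`; `R' = {tan σ v | σ ∈ R, v ∈ σ}` has at most
`|R| - 1` elements, so by induction there is a facet of `S'` not in `R'`, it is `tan σ v` for a facet
`σ ∈ S` with `v ∈ σ`, `σ ∉ R`. If all `τ ∈ R` contain `ρ` we need a facet which does not
contain `ρ`. If all facets contained `ρ`: let `v ∈ ρ`, `v ∉ lin S`. Every `x ∈ berg M` is in some facet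
`σ ∋ v` (`S_PURE`), so `x + v ∈ berg M`; by `S_NONI` `-v ∈ berg M`, so `-v` is in a facet,
which also contains `v`, so `v ∈ lin S`, a contradiction. (II) General `u`: `Car S v u` and the star
of `v` (for it `dim (lin S') = dim u`). -/
def S_CNT : Prop := ∀ (E : Type) [Fintype E] (M : Matroid E) (r : ℕ) (S : Set (Set (E → ℝ))),
    OK M r → FanOn M S → ∀ u ∈ S, ∀ R : Set (Set (E → ℝ)), (∀ σ ∈ R, IsFacet r S σ) →
    R.ncard + dim u ≤ r → ∃ σ, IsFacet r S σ ∧ u ⊆ σ ∧ σ ∉ R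

/-- **IND** (from `S_FAN`, `S_RAY`, `S_STF`, `S_STM`, `S_MAT`, `S_PURE`, `S_LINK`, `S_CNT`), the main
induction, on `r - l`, `l = dim (lin S)`, for all `M, S`. Let `R` with `|R| < r - l`. If `r - l = 1`
then `R = ∅` and any two facets share the ridge `lin S`. Let `r - l ≥ 2`. If `|R| + l + 1 = r` let
`T = ⋂ R ∈ S` (`R ≠ ∅` finite), otherwise `T = lin S`. Call a ray `ρ` good if `¬ ρ ⊆ T`; then
`R_ρ = {σ ∈ R | ρ ⊆ σ}` has `|R_ρ| + (l + 1) < r`.
(1) Two facets `σ, τ ∉ R` containing a good ray `ρ` are linked by `Adj r S R`: let `Car S v ρ`, `N` the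
initial matroid at `v`, `S' = star S v`, `dim (lin S') = l + 1`; induction for `S'` and
`R' = {tan σ v | σ ∈ R, v ∈ σ}`; the facets and ridges of `S'` are the `tan σ v` of the facets and
ridges `σ ∋ v` of `S` (`S_STF`: dimensions and inclusions); a ridge `q ∋ v` of `S` contained in some
`c ∈ R` would have `v ∈ c`, `tan q v ⊆ tan c v ∈ R'`.
(2) Every facet `σ ∉ R` contains a good ray: `σ ⊄ T` (if `T = ⋂ R` then `σ ⊆ τ ∈ R` would give
`σ = τ`; if `T = lin S` by dimension), `S_RAY`.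
(3) Let `σ, τ ∉ R` be facets, `ρ ⊆ σ`, `ρ' ⊆ τ` good rays; by `S_LINK` there is a chain of good rays
from `ρ` to `ρ'`, consecutive ones `a, b` in a common `u ∈ S` with `dim u ≤ l + 2`. By `S_CNT`
for `u` and `R_a = {c ∈ R | a ⊆ c}` (`|R_a| + l + 2 ≤ r`) there is a facet `κ ⊇ u`, `κ ∉ R_a`, so
`κ ∉ R` (`a ⊆ u ⊆ κ`). It contains `a` and `b`. Now use (1) along the chain. -/
def S_IND : Prop := ∀ (E : Type) [Fintype E] (M : Matroid E) (r : ℕ) (S : Set (Set (E → ℝ))),
    OK M r → FanOn M S → KConn r (r - dim (lin S)) S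

/-- **COA** (from `S_FAC`, `S_BERG`, `S_LEV`): the coarse structure is a fan with support `berg M`.
Proof. For `w ∈ berg M` the closure of the class of `w` is `cn M (Ini M w)`: `⊆` because `cn` is closed;
`⊇`: for `x ∈ cn M (Ini M w)`, `x + t w` (`t > 0`) has `Ini M (x + t w) = Ini M w`, let `t → 0`
(`cn M (Ini M w) ⊆ berg M` by `S_BERG`). Finite: `Ini M w` is a set of subsets of `E`. Polyhedral:
finitely many inequalities `wt x B ≤ wt x B'`. Faces: `cn M (Ini M w) = Cf f`, `f` indexed by the pairs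
`(B, B')`; a face is `Ff f z` for a point `z` of the face (`S_FAC`), and
`Ff f z = cn M (Ini M z)` (for `B ∈ Ini M w ⊆ Ini M z`, `f_(B,B') z = 0` iff `B' ∈ Ini M z`).
Intersections: for `w, w'` let `z ∈ cn M (Ini M w) ∩ cn M (Ini M w')` with `Ini M z` of minimal
cardinality; for `x` in the intersection `Ini M (z + x) = Ini M z ∩ Ini M x`, so `Ini M z ⊆ Ini M x`;
hence the intersection is `cn M (Ini M z) = Ff f z`. Support: `w ∈ cn M (Ini M w) ⊆ berg M`. -/
def S_COA : Prop := ∀ (E : Type) [Fintype E] (M : Matroid E) (r : ℕ), OK M r → FanOn M (coarse M)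

end Run7.h480.BF
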