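import Pool.Agent.Run7.h480.BF.Defs

/-!
Project BF: basic facts on ranks (natural number valued), weights and independence.
-/

set_option autoImplicit false

open Set Module

namespace Run7.h480.BF

variable {E : Type} [Fintype E]

/-- natural number valued rank -/
noncomputable def rk (M : Matroid E) (X : Set E) : ℕ := (M.eRk X).toNat

lemma coe_rk (M : Matroid E) (X : Set E) : (rk M X : ℕ∞) = M.eRk X := by
  apply ENat.natCast_toNat
  have h := M.eRk_le_encard X
  exact ne_top_of_le_ne_top ((Set.toFinite X).encard_lt_top.ne) h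

lemma coe_ncard (X : Set E) : (X.ncard : ℕ∞) = X.encard := (Set.toFinite X).cast_ncard_eq

lemma rk_mono (M : Matroid E) {X Y : Set E} (h : X ⊆ Y) : rk M X ≤ rk M Y := by
  have := M.eRk_mono h
  rw [← coe_rk, ← coe_rk] at this
  exact_mod_cast this

lemma rk_sub (M : Matroid E) (X Y : Set E) : rk M (X ∩ Y) + rk M (X ∪ Y) ≤ rk M X + rk M Y := by
  have := M.eRk_inter_add_eRk_union_le X Y
  rw [← coe_rk, ← coe_rk, ← coe_rk, ← coe_rk] at this
  exact_mod_cast this

lemma rk_indep {M : Matroid E} {I : Set E} (hI : M.Indep I) : rk M I = I.ncard := by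
  have := hI.eRk_eq_encard
  rw [← coe_rk, ← coe_ncard] at this
  exact_mod_cast this

lemma rk_closure (M : Matroid E) (X : Set E) : rk M (M.closure X) = rk M X := by
  simp [rk]

lemma rk_le_ncard (M : Matroid E) (X : Set E) : rk M X ≤ X.ncard := by
  have := M.eRk_le_encard X
  rw [← coe_rk, ← coe_ncard] at this
  exact_mod_cast this

/-- a base meets a set in at most `rk` elements -/
lemma inter_le {M : Matroid E} {B : Set E} (hB : M.IsBase B) (F : Set E) :
    (B ∩ F).ncard ≤ rk M F := by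
  have h1 : M.Indep (B ∩ F) := hB.indep.subset inter_subset_left
  rw [← rk_indep h1]
  exact rk_mono M inter_subset_right

/-- a base meeting `F` in an arbitrary basis of `F` -/
lemma exists_base_inter {M : Matroid E} (hE : M.E = univ) (F : Set E) :
    ∃ B, M.IsBase B ∧ (B ∩ F).ncard = rk M F := by
  obtain ⟨I, hI⟩ := M.exists_isBasis F (by rw [hE]; exact subset_univ _)
  obtain ⟨B, hB, hIB⟩ := hI.indep.exists_isBase_superset
  refine ⟨B, hB, le_antisymm (inter_le hB F) ?_⟩
  have h1 : rk M F = I.ncard := by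
    have := hI.eRk_eq_encard
    rw [← coe_rk, ← coe_ncard] at this
    exact_mod_cast this
  rw [h1]
  exact Set.ncard_le_ncard (subset_inter hIB hI.subset) (Set.toFinite _)

lemma wt_ne (F B : Set E) : wt (ne F) B = -((B ∩ F).ncard : ℝ) := by
  classical
  unfold wt ne
  have h1 : ∀ i, B.indicator (fun i => -(F.indicator (fun _ => (1 : ℝ)) i)) i =
      -((B ∩ F).indicator (fun _ => (1 : ℝ)) i) := by
    intro i
    by_cases hB : i ∈ B <;> by_cases hF : i ∈ F <;> simp [hB, hF]
  rw [Finset.sum_congr rfl fun i _ => h1 i, Finset.sum_neg_distrib]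
  congr 1
  rw [Set.ncard_eq_toFinset_card', Set.toFinset]
  rw [← Finset.sum_subset (Finset.subset_univ (B ∩ F).toFinset)]
  · rw [Finset.sum_congr rfl (g := fun _ => (1 : ℝ))]
    · rw [Finset.sum_const, nsmul_eq_mul, mul_one]
      congr 2
    · intro i hi
      rw [Set.mem_toFinset] at hi
      simp [hi]
  · intro i _ hi
    rw [Set.mem_toFinset] at hi
    simp [hi]

/-- `K`-tight sets -/
lemma tight_iff {M : Matroid E} {r : ℕ} (hM : OK M r) {K : Set (Set E)}
    (hK : ∀ B ∈ K, M.IsBase B) (F : Set E) :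
    ne F ∈ cn M K ↔ ∀ B ∈ K, (B ∩ F).ncard = rk M F := by
  constructor
  · intro h B hB
    obtain ⟨B', hB', h'⟩ := exists_base_inter hM.ground F
    have h1 := h B hB B' hB'
    rw [wt_ne, wt_ne, h'] at h1
    have h2 : rk M F ≤ (B ∩ F).ncard := by
      have : (rk M F : ℝ) ≤ ((B ∩ F).ncard : ℝ) := by linarith
      exact_mod_cast this
    exact le_antisymm (inter_le (hK B hB) F) h2
  · intro h B hB B' hB'
    rw [wt_ne, wt_ne, h B hB]
    have := inter_le hB' F
    have h2 : ((B' ∩ F).ncard : ℝ) ≤ (rk M F : ℝ) := by exact_mod_cast this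
    linarith

lemma ncard_union_inter (B F G : Set E) :
    (B ∩ (F ∪ G)).ncard + (B ∩ (F ∩ G)).ncard = (B ∩ F).ncard + (B ∩ G).ncard := by
  have h := Set.ncard_union_add_ncard_inter (B ∩ F) (B ∩ G) (Set.toFinite _) (Set.toFinite _)
  rw [← inter_union_distrib_left] at h
  have h2 : B ∩ F ∩ (B ∩ G) = B ∩ (F ∩ G) := by
    ext x; simp only [mem_inter_iff]; tauto
  rw [h2] at h
  exact h

lemma tight_ui {M : Matroid E} {r : ℕ} (hM : OK M r) {K : Set (Set E)}
    (hK : ∀ B ∈ K, M.IsBase B) {F G : Set E} (hF : ne F ∈ cn M K) (hG : ne G ∈ cn M K) :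
    ne (F ∪ G) ∈ cn M K ∧ ne (F ∩ G) ∈ cn M K := by
  rw [tight_iff hM hK] at hF hG
  rw [tight_iff hM hK, tight_iff hM hK]
  have key : ∀ B ∈ K, (B ∩ (F ∪ G)).ncard = rk M (F ∪ G) ∧ (B ∩ (F ∩ G)).ncard = rk M (F ∩ G) := by
    intro B hB
    have h1 := ncard_union_inter B F G
    rw [hF B hB, hG B hB] at h1
    have h2 := rk_sub M F G
    have h3 := inter_le (hK B hB) (F ∪ G)
    have h4 := inter_le (hK B hB) (F ∩ G)
    omega
  exact ⟨fun B hB => (key B hB).1, fun B hB => (key B hB).2⟩

/-- linear independence from a biorthogonal system of points -/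
lemma biorth {ι : Type} [Fintype ι] (W : Submodule ℝ (E → ℝ)) (v : ι → E → ℝ) (pt : ι → E)
    (hv : ∀ i, v i ∈ W) (h1 : ∀ i, v i (pt i) = 1) (h0 : ∀ i j, i ≠ j → v i (pt j) = 0) :
    Fintype.card ι ≤ finrank ℝ W := by
  classical
  have hli : LinearIndependent ℝ v := by
    rw [Fintype.linearIndependent_iff]
    intro g hg i
    have := congrFun hg (pt i)
    simp only [Finset.sum_apply, Pi.smul_apply, smul_eq_mul, Pi.zero_apply] at this
    rw [Finset.sum_eq_single i] at this
    · rwa [h1, mul_one] at this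
    · intro j _ hj
      rw [h0 j i hj, mul_zero]
    · intro h; exact absurd (Finset.mem_univ i) h
  have hli2 : LinearIndependent ℝ (fun i => (⟨v i, hv i⟩ : W)) := by
    have : v = W.subtype ∘ (fun i => (⟨v i, hv i⟩ : W)) := rfl
    rw [this] at hli
    exact hli.of_comp
  exact hli2.fintype_card_le_finrank

end Run7.h480.BF
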