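import Pool.Agent.Run7.h480.BF.Iface
import Pool.Agent.Run7.h480.BF.Rk

/-!
Project BF, piece FLAT: non-tight flats are connected by comparabilities.
-/

set_option autoImplicit false

open Set Module

namespace Run7.h480.BF

variable {E : Type} [Fintype E]

lemma OK.self_mem {M : Matroid E} {r : ℕ} (hM : OK M r) (e : E) : e ∈ M.closure {e} :=
  M.mem_closure_self e (by rw [hM.ground]; trivial)

/-- exchange for closures of points -/
lemma OK.exch1 {M : Matroid E} {r : ℕ} (hM : OK M r) {e f : E} (h : e ∈ M.closure {f}) :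
    f ∈ M.closure {e} := by
  have h0 : e ∉ M.closure ∅ := by
    have := hM.nonloop e
    rw [Matroid.isNonloop_iff] at this
    intro hc
    exact this.1 hc
  have h1 : e ∈ M.closure (insert f ∅) := by simpa using h
  have := M.closure_exchange (X := ∅) ⟨h1, h0⟩
  simpa using this.1

lemma rk_point {M : Matroid E} {r : ℕ} (hM : OK M r) (e : E) : rk M (M.closure {e}) = 1 := by
  rw [rk_closure]
  have := (hM.nonloop e).eRk_eq
  rw [← coe_rk] at this
  exact_mod_cast this

lemma tight_biUnion {M : Matroid E} {r : ℕ} (hM : OK M r) {K : Set (Set E)}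
    (hK : ∀ B ∈ K, M.IsBase B) (s : Finset E)
    (h : ∀ e ∈ s, ne (M.closure {e}) ∈ cn M K) : ne (⋃ e ∈ s, M.closure {e}) ∈ cn M K := by
  classical
  induction s using Finset.induction_on with
  | empty =>
    rw [tight_iff hM hK]
    intro B _
    have : rk M (∅ : Set E) ≤ 0 := by
      have := rk_le_ncard M (∅ : Set E)
      simpa using this
    simp only [Finset.notMem_empty, iUnion_of_empty, iUnion_empty, inter_empty, ncard_empty]
    omega
  | insert a s ha ih =>
    rw [Finset.set_biUnion_insert]
    exact (tight_ui hM hK (h a (Finset.mem_insert_self a s))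
      (ih fun e he => h e (Finset.mem_insert_of_mem he))).1

lemma good_point {M : Matroid E} {r : ℕ} (hM : OK M r) {K : Set (Set E)}
    (hK : ∀ B ∈ K, M.IsBase B) {F : Set E} (hF : M.IsFlat F) (hg : ne F ∉ cn M K) :
    ∃ e ∈ F, ne (M.closure {e}) ∉ cn M K := by
  classical
  by_contra hcon
  push Not at hcon
  apply hg
  have h1 := tight_biUnion hM hK F.toFinset (fun e he => hcon e (by simpa using he))
  have h2 : (⋃ e ∈ F.toFinset, M.closure {e}) = F := by
    apply subset_antisymm
    · intro x hx
      simp only [mem_toFinset, mem_iUnion, exists_prop] at hx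
      obtain ⟨e, he, hx⟩ := hx
      have : M.closure {e} ⊆ M.closure F := M.closure_subset_closure (by simpa using he)
      rw [hF.closure] at this
      exact this hx
    · intro x hx
      simp only [mem_toFinset, mem_iUnion, exists_prop]
      exact ⟨x, hx, hM.self_mem x⟩
  rwa [h2] at h1

/-- the final count -/
lemma final_count {M : Matroid E} {r : ℕ} (hM : OK M r) {K : Set (Set E)} (hKn : K.Nonempty)
    (hK : ∀ B ∈ K, M.IsBase B) {L : Set E} (hL : M.IsFlat L) {e : E} (heL : e ∈ L)
    (hLt : ne L ∈ cn M K) (hL2 : rk M L ≤ 2) (hs : ∀ s, s ∉ L → ne (M.closure {s}) ∈ cn M K) :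
    r ≤ finrank ℝ (LinK {B | M.IsBase B}) + 1 := by
  classical
  obtain ⟨B, hB⟩ := hKn
  have hBb := hK B hB
  rw [tight_iff hM hK] at hLt
  have hBL := hLt B hB
  have hsub : ∀ x ∈ L, M.closure {x} ⊆ L := by
    intro x hx
    have : M.closure {x} ⊆ M.closure L := M.closure_subset_closure (by simpa using hx)
    rwa [hL.closure] at this
  -- every point outside `L` is the closure of an element of `B \ L`
  have hcov : ∀ s, s ∉ L → ∃ b ∈ B \ L, s ∈ M.closure {b} := by
    intro s hsL
    have h1 := hs s hsL
    rw [tight_iff hM hK] at h1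
    have h2 := h1 B hB
    rw [rk_point hM] at h2
    obtain ⟨b, hb⟩ := Set.ncard_eq_one.1 h2
    have hb1 : b ∈ B ∩ M.closure {s} := by rw [hb]; exact mem_singleton b
    refine ⟨b, ⟨hb1.1, fun hbL => hsL ?_⟩, hM.exch1 hb1.2⟩
    exact hsub b hbL (hM.exch1 hb1.2)
  set B1 : Finset E := (B \ L).toFinset with hB1
  have hB1c : B1.card + rk M L = r := by
    have h1 : (B \ L).ncard + (B ∩ L).ncard = B.ncard := by
      have := Set.ncard_inter_add_ncard_sdiff_eq_ncard B L (Set.toFinite _)
      omega
    rw [hBL, hM.rank B hBb] at h1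
    rw [hB1, ← Set.ncard_eq_toFinset_card']
    exact h1
  -- the bases
  have hall : ∀ B', M.IsBase B' → (B' ∩ L).ncard = rk M L ∧
      ∀ b ∈ B1, (B' ∩ M.closure {b}).ncard = 1 := by
    intro B' hB'
    have hle : ∀ b ∈ B1, (B' ∩ M.closure {b}).ncard ≤ 1 := by
      intro b _
      rw [← rk_point hM b]
      exact inter_le hB' _
    have hcov2 : B' ⊆ (B' ∩ L) ∪ ⋃ b ∈ B1, (B' ∩ M.closure {b}) := by
      intro x hx
      by_cases hxL : x ∈ L
      · exact Or.inl ⟨hx, hxL⟩
      · obtain ⟨b, hb, hxb⟩ := hcov x hxL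
        refine Or.inr ?_
        simp only [mem_iUnion, exists_prop]
        exact ⟨b, by simpa [hB1] using hb, hx, hxb⟩
    have hc1 : B'.ncard ≤ (B' ∩ L).ncard + ∑ b ∈ B1, (B' ∩ M.closure {b}).ncard := by
      refine (Set.ncard_le_ncard hcov2 (Set.toFinite _)).trans ?_
      refine (Set.ncard_union_le _ _).trans ?_
      refine Nat.add_le_add_left ?_ _
      exact Finset.set_ncard_biUnion_le B1 _
    rw [hM.rank B' hB'] at hc1
    have hc2 : ∑ b ∈ B1, (B' ∩ M.closure {b}).ncard ≤ B1.card := by
      have := Finset.sum_le_sum hle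
      simpa using this
    have hc3 := inter_le hB' L
    have hc4 : ∑ b ∈ B1, (B' ∩ M.closure {b}).ncard = B1.card := by omega
    refine ⟨by omega, ?_⟩
    have h5 : ∑ b ∈ B1, (B' ∩ M.closure {b}).ncard = ∑ b ∈ B1, 1 := by simpa using hc4
    exact (Finset.sum_eq_sum_iff_of_le hle).1 h5
  -- the vectors
  have hmem : ∀ F : Set E, (∀ B' B'', M.IsBase B' → M.IsBase B'' →
      (B' ∩ F).ncard = (B'' ∩ F).ncard) → -(ne F) ∈ LinK {B | M.IsBase B} := by
    intro F hF
    rw [Submodule.neg_mem_iff]
    intro C hC D hD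
    rw [wt_ne, wt_ne, hF C D hC hD]
  have hB1m : ∀ x, x ∈ B1 ↔ x ∈ B \ L := by
    intro x
    rw [hB1, Set.mem_toFinset]
  have key := biorth (ι := Option B1) (LinK {B | M.IsBase B})
    (fun o => match o with
      | none => -(ne L)
      | some b => -(ne (M.closure {b.1})))
    (fun o => match o with
      | none => e
      | some b => b.1) ?_ ?_ ?_
  · simp only [Fintype.card_option, Fintype.card_coe] at key
    omega
  · intro o
    cases o with
    | none => exact hmem L fun B' B'' h' h'' => by rw [(hall B' h').1, (hall B'' h'').1]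
    | some b =>
      refine hmem _ fun B' B'' h' h'' => ?_
      rw [(hall B' h').2 b.1 b.2, (hall B'' h'').2 b.1 b.2]
  · intro o
    cases o with
    | none => simp [ne, heL]
    | some b => simp [ne, hM.self_mem b.1]
  · intro o o' hoo
    cases o with
    | none =>
      cases o' with
      | none => exact absurd rfl hoo
      | some b =>
        have : b.1 ∉ L := ((hB1m b.1).1 b.2).2
        simp [ne, this]
    | some b =>
      have hbL : b.1 ∈ B \ L := (hB1m b.1).1 b.2
      cases o' with
      | none =>
        have : e ∉ M.closure {b.1} := by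
          intro h
          exact hbL.2 (hsub e heL (hM.exch1 h))
        simp [ne, this]
      | some b' =>
        have hb'L : b'.1 ∈ B \ L := (hB1m b'.1).1 b'.2
        have hne : b.1 ≠ b'.1 := fun h => hoo (by rw [Subtype.ext h])
        have : b'.1 ∉ M.closure {b.1} := by
          intro h
          have h1 : b'.1 ∉ M.closure (B \ {b'.1}) := hBb.indep.notMem_closure_sdiff_of_mem hb'L.1
          exact h1 (M.closure_subset_closure (by
            intro x hx
            rw [mem_singleton_iff] at hx
            subst hx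
            exact ⟨hbL.1, hne⟩) h)
        simp [ne, this]

/-- two good points are connected -/
lemma points_conn {M : Matroid E} {r : ℕ} (hM : OK M r)
    (hr : finrank ℝ (LinK {B | M.IsBase B}) + 2 ≤ r) {K : Set (Set E)} (hKn : K.Nonempty)
    (hK : ∀ B ∈ K, M.IsBase B) {e f : E} (he : ne (M.closure {e}) ∉ cn M K)
    (hf : ne (M.closure {f}) ∉ cn M K) :
    Relation.ReflTransGen (Cmp M K ne) (M.closure {e}) (M.closure {f}) := by
  classical
  by_cases hfe : f ∈ M.closure {e}
  · have h1 : M.closure {f} = M.closure {e} := by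
      apply subset_antisymm
      · exact M.closure_subset_closure_of_subset_closure (by simpa using hfe)
      · exact M.closure_subset_closure_of_subset_closure (by simpa using hM.exch1 hfe)
    rw [h1]
  set L := M.closure {e, f} with hLdef
  have heL : e ∈ L := M.mem_closure_of_mem (by simp) (by rw [hM.ground]; exact subset_univ _)
  have hfL : f ∈ L := M.mem_closure_of_mem (by simp) (by rw [hM.ground]; exact subset_univ _)
  have hLf : M.IsFlat L := M.isFlat_closure _
  have heL' : M.closure {e} ⊆ L := M.closure_subset_closure (by simp)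
  have hfL' : M.closure {f} ⊆ L := M.closure_subset_closure (by simp)
  have hpe : M.IsFlat (M.closure {e}) := M.isFlat_closure _
  have hpf : M.IsFlat (M.closure {f}) := M.isFlat_closure _
  by_cases hLg : ne L ∉ cn M K
  · exact (Relation.ReflTransGen.single ⟨⟨hpe, he⟩, ⟨hLf, hLg⟩, Or.inl heL'⟩).tail
      ⟨⟨hLf, hLg⟩, ⟨hpf, hf⟩, Or.inr hfL'⟩
  rw [not_not] at hLg
  have hL2 : rk M L ≤ 2 := by
    rw [hLdef, rk_closure]
    refine (rk_le_ncard M _).trans ?_
    exact (Set.ncard_insert_le _ _).trans (by simp)
  -- for s outside L the flats through p, s are good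
  have hA : ∀ g s : E, g ∈ L → (∃ g', g' ∈ L ∧ g' ∉ M.closure {g}) →
      ne (M.closure {g}) ∉ cn M K → s ∉ L → ne (M.closure {g, s}) ∉ cn M K := by
    intro g s hgL _ hg hsL hcon
    apply hg
    have h1 := (tight_ui hM hK hcon hLg).2
    have h2 : M.closure {g, s} ∩ L = M.closure {g} := by
      apply subset_antisymm
      · rintro x ⟨hx1, hx2⟩
        by_contra hx3
        have h3 : x ∈ M.closure (insert s {g}) := by rwa [Set.pair_comm] at hx1
        have h4 := (M.closure_exchange (X := {g}) ⟨h3, hx3⟩).1
        apply hsL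
        have h5 : M.closure (insert x {g}) ⊆ M.closure L :=
          M.closure_subset_closure (by
            intro y hy
            rcases hy with rfl | hy
            · exact hx2
            · rw [mem_singleton_iff] at hy; rw [hy]; exact hgL)
        rw [hLf.closure] at h5
        exact h5 h4
      · intro x hx
        refine ⟨M.closure_subset_closure (by simp) hx, ?_⟩
        have h5 : M.closure {g} ⊆ M.closure L := M.closure_subset_closure (by simpa using hgL)
        rw [hLf.closure] at h5
        exact h5 hx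
    rwa [h2] at h1
  by_cases hs : ∃ s, s ∉ L ∧ ne (M.closure {s}) ∉ cn M K
  · obtain ⟨s, hsL, hsg⟩ := hs
    have hef : e ∉ M.closure {f} := fun h => hfe (hM.exch1 h)
    have hA1 := hA e s heL ⟨f, hfL, hfe⟩ he hsL
    have hA2 := hA f s hfL ⟨e, heL, hef⟩ hf hsL
    have hfA1 : M.IsFlat (M.closure {e, s}) := M.isFlat_closure _
    have hfA2 : M.IsFlat (M.closure {f, s}) := M.isFlat_closure _
    have hps : M.IsFlat (M.closure {s}) := M.isFlat_closure _
    refine (((Relation.ReflTransGen.single (b := M.closure {e, s}) ⟨⟨hpe, he⟩, ⟨hfA1, hA1⟩,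
      Or.inl (M.closure_subset_closure (by simp))⟩).tail (c := M.closure {s})
      ⟨⟨hfA1, hA1⟩, ⟨hps, hsg⟩, Or.inr (M.closure_subset_closure (by simp))⟩).tail
      (c := M.closure {f, s}) ⟨⟨hps, hsg⟩, ⟨hfA2, hA2⟩,
      Or.inl (M.closure_subset_closure (by simp))⟩).tail
      ⟨⟨hfA2, hA2⟩, ⟨hpf, hf⟩, Or.inr (M.closure_subset_closure (by simp))⟩
  · exfalso
    push Not at hs
    have := final_count hM hKn hK hLf heL hLg hL2 hs
    omega

theorem t_FLAT : S_FLAT := by
  intro E _ M r hM hr K hKn hK _ F G hF hG hFg hGg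
  obtain ⟨e, he, hep⟩ := good_point hM hK hF hFg
  obtain ⟨f, hf, hfp⟩ := good_point hM hK hG hGg
  have h1 : M.closure {e} ⊆ F := by
    have : M.closure {e} ⊆ M.closure F := M.closure_subset_closure (by simpa using he)
    rwa [hF.closure] at this
  have h2 : M.closure {f} ⊆ G := by
    have : M.closure {f} ⊆ M.closure G := M.closure_subset_closure (by simpa using hf)
    rwa [hG.closure] at this
  have h3 := points_conn hM hr hKn hK hep hfp
  exact ((Relation.ReflTransGen.single ⟨⟨hF, hFg⟩, ⟨M.isFlat_closure _, hep⟩, Or.inr h1⟩).trans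
    h3).tail ⟨⟨M.isFlat_closure _, hfp⟩, ⟨hG, hGg⟩, Or.inl h2⟩

end Run7.h480.BF
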