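import Pool.Agent.Run7.h480.BF.Base
import Pool.Agent.Run7.h480.BF.Iface

/-!
Project BF: pieces BERG, MAT, LOC.
-/

set_option autoImplicit false
set_option linter.unusedSectionVars false

open Set Module Filter Topology

namespace Run7.h480.BF

theorem t_BERG : S_BERG := by
  intro E _ M r hM w
  constructor
  · intro hw e
    obtain ⟨B, hB⟩ := ini_nonempty M w
    by_cases he : e ∈ B
    · exact ⟨B, hB, he⟩
    have hC := hM.fc hB.1 he
    have heC := M.mem_fundCircuit e B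
    obtain ⟨a, ha, b, hb, hab, hwab, hmax⟩ := hw _ hC
    have hf : ∃ f ∈ M.fundCircuit e B, f ≠ e ∧ w e ≤ w f := by
      by_cases hae : a = e
      · exact ⟨b, hb, fun h => hab (hae.trans h.symm), by rw [← hwab]; exact hmax e heC⟩
      · exact ⟨a, ha, hae, hmax e heC⟩
    obtain ⟨f, hfC, hfe, hwf⟩ := hf
    obtain ⟨hfB, hB'⟩ := hM.exch hB.1 he hfC hfe
    refine ⟨_, ini_of_le hB hB' ?_, mem_insert _ _⟩
    rw [wt_exch w hfB he]
    linarith
  · intro h C hC
    obtain ⟨e, heC, hmax⟩ := Set.exists_max_image C w (Set.toFinite _) hC.nonempty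
    obtain ⟨B, hB, heB⟩ := h e
    obtain ⟨g, hgC, hge, hgB, hB'⟩ := hM.exch2 hB.1 heB hC heC
    have h1 := hB.2 _ hB'
    rw [wt_exch w heB hgB] at h1
    exact ⟨e, heC, g, hgC, hge.symm, le_antisymm (by linarith) (hmax g hgC), hmax⟩

theorem t_MAT : S_MAT := by
  intro E _ M r hM w hw
  have hex : Matroid.ExchangeProperty (fun B => B ∈ Ini M w) := by
    intro B1 B2 h1 h2 e he
    have hC := hM.fc h2.1 he.2
    obtain ⟨g, hgC, hge, hgB, hB'⟩ := hM.exch2 h1.1 he.1 hC (M.mem_fundCircuit e B2)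
    obtain ⟨hg2, hB''⟩ := hM.exch h2.1 he.2 hgC hge
    refine ⟨g, ⟨hg2, hgB⟩, ini_of_le h1 hB' ?_⟩
    have h3 := h2.2 _ hB''
    rw [wt_exch w hg2 he.2] at h3
    rw [wt_exch w he.1 hgB]
    linarith
  let N : Matroid E := Matroid.ofIsBaseOfFinite (E := univ) (Set.toFinite _) (fun B => B ∈ Ini M w)
    (ini_nonempty M w) hex (fun B _ => subset_univ B)
  have hN : ∀ B, N.IsBase B ↔ B ∈ Ini M w := by
    intro B
    simp [N]
  refine ⟨N, ⟨rfl, fun e => ?_, fun B hB => hM.rank B ((hN B).1 hB).1⟩, hN⟩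
  obtain ⟨B, hB, heB⟩ := (t_BERG E M r hM w).1 hw e
  exact ((hN B).2 hB).indep.isNonloop_of_mem heB

theorem t_LOC : S_LOC := by
  intro E _ M N r hM hN w _ hI x
  obtain ⟨ε, hε, h⟩ := exists_eps_ini M w x
  refine ⟨ε, hε, fun t ht hte => ?_⟩
  have h1 : Ini M (w + t • x) = Ini N x := by
    rw [h t ht hte]
    ext B
    simp only [Ini, mem_setOf_eq] at *
    constructor
    · rintro ⟨ha, hb⟩
      exact ⟨(hI B).2 ha, fun B' hB' => hb B' ((hI B').1 hB')⟩
    · rintro ⟨ha, hb⟩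
      exact ⟨(hI B).1 ha, fun B' hB' => hb B' ((hI B').2 hB')⟩
  refine ⟨h1, ?_⟩
  rw [t_BERG E M r hM, t_BERG E N r hN, h1]

end Run7.h480.BF
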