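import Pool.Agent.Run7.h480.BF.Asm
import Pool.Agent.Run7.h480.BF.FLAT
import Pool.Agent.Run7.h480.BF.MatA
import Pool.Agent.Run7.h215.BF.FAC
import Pool.Agent.Run7.h215.BF.FAN
import Pool.Agent.Run7.h215.BF.RAY
import Pool.Agent.Run7.h215.BF.STF
import Pool.Agent.Run7.h321.BF.COA
import Pool.Agent.Run7.h321.BF.LINK
import Pool.Agent.Run7.h487.BF.DIMK
import Pool.Agent.Run7.h487.BF.TOP
import Pool.Agent.Run7.h531.BF.MAX
import Pool.Agent.Run7.h531.BF.NONI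
import Pool.Agent.Run7.h531.BF.TWO
import Pool.Agent.Run7.h586.BF.Pol1
import Pool.Agent.Run7.h586.BF.Pol2
import Pool.Agent.Run7.h586.BF.StmRef
import Pool.Agent.Run7.h68.BF.GOOD
import Pool.Agent.Run7.h688.BF.CNT
import Pool.Agent.Run7.h688.BF.IND
import Pool.Agent.Run7.h688.BF.PURE
import Pool.Agent.Run7.h882.BF.LEV

/-!
Project BF: all pieces together.
-/

set_option autoImplicit false

open Set Module

namespace Run7.h480.BF

theorem a_POL1 : S_POL1 := Run7.h586.BF.t_POL1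
theorem a_POL2 : S_POL2 := Run7.h586.BF.t_POL2 a_POL1
theorem a_RAY : S_RAY := t_RAY a_POL1
theorem a_EDGE : S_EDGE := t_EDGE a_POL2
theorem a_LEV : S_LEV := Run7.h882.BF.t_LEV
theorem a_SAME : S_SAME := Run7.h882.BF.t_SAME
theorem a_GOOD : S_GOOD := Run7.h68.BF.t_GOOD t_BERG a_LEV t_FLAT
theorem a_DIMK : S_DIMK := Run7.h487.BF.t_DIMK t_MAT
theorem a_TWO : S_TWO := t_TWO t_BERG t_MAT t_LOC a_LEV
theorem a_MAX : S_MAX := t_MAX a_TWO a_DIMK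
theorem a_NONI : S_NONI := t_NONI a_LEV
theorem a_EXIT : S_EXIT := Run7.h487.BF.t_EXIT t_BERG a_DIMK
theorem a_TOPA : S_TOPA := Run7.h487.BF.t_TOPA t_BERG a_GOOD a_DIMK a_TWO a_EXIT
theorem a_TOPB : S_TOPB := Run7.h487.BF.t_TOPB t_BERG a_DIMK a_TWO a_EXIT
theorem a_TOPC : S_TOPC := Run7.h487.BF.t_TOPC t_BERG a_DIMK
theorem a_TOP : S_TOP := Run7.h487.BF.t_TOP a_TOPA a_TOPB a_TOPC a_DIMK
theorem a_STM : S_STM := Run7.h586.BF.t_STM t_LOC
theorem a_REF : S_REF := Run7.h586.BF.t_REF t_MAT a_STM t_STC a_SAME t_FAN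
theorem a_LINK : S_LINK := Run7.h321.BF.t_LINK t_FAN a_RAY a_EDGE a_REF a_TOP
theorem a_PURE : S_PURE := Run7.h688.BF.t_PURE a_REF a_DIMK a_MAX t_FAN
theorem a_CNT : S_CNT := Run7.h688.BF.t_CNT t_FAN a_RAY t_STF a_STM t_MAT a_PURE a_NONI
theorem a_IND : S_IND := Run7.h688.BF.t_IND t_FAN a_RAY t_STF a_STM t_MAT a_LINK a_CNT
theorem a_COA : S_COA := Run7.h321.BF.t_COA t_FAC t_BERG

end Run7.h480.BF
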