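import Pool.Agent.Run7.h480.BF.Iface

/-!
Project BF: the public theorem from the pieces.
-/

set_option autoImplicit false

open Set Module

namespace Run7.h480.BF

lemma ok_of {E : Type} [Fintype E] (M : Matroid E) (r : ℕ) (hE : M.E = univ) (hl : M.Loopless)
    (hr : M.eRank = r) : OK M r := by
  refine ⟨hE, fun e => M.isNonloop_of_loopless (by rw [hE]; trivial), fun B hB => ?_⟩
  have h1 : B.encard = M.eRank := hB.encard_eq_eRank
  rw [hr] at h1
  have hf : B.Finite := Set.toFinite B
  rw [← hf.cast_ncard_eq] at h1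
  exact_mod_cast h1

/-- The public statement from the pieces. -/
theorem main (hI : S_IND) (hC : S_COA) (E : Type) [Fintype E] (M : Matroid E) (r : ℕ)
    (hE : M.E = univ) (hl : M.Loopless) (hr : M.eRank = r) :
    ((IsFan (coarse M) ∧ ⋃₀ coarse M = berg M) ∧
      KConn r (r - dim (lin (coarse M))) (coarse M)) ∧
    (∀ S : Set (Set (E → ℝ)), IsFan S → ⋃₀ S = berg M → KConn r (r - dim (lin S)) S) := by
  have hM := ok_of M r hE hl hr
  have hc := hC E M r hM
  exact ⟨⟨⟨hc.fan, hc.supp⟩, hI E M r _ hM hc⟩, fun S hS hs => hI E M r S hM ⟨hS, hs⟩⟩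

end Run7.h480.BF
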