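import Pool.Agent.Run7.h480.BF.Rk

/-!
Project BF: weights, initial matroids, basis exchange, small parameters. Helper lemmas for all.
-/

set_option autoImplicit false
set_option linter.unusedSectionVars false

open Set Module Filter Topology

namespace Run7.h480.BF

variable {E : Type} [Fintype E]

/-! ### weights -/

lemma wt_add (a b : E → ℝ) (C : Set E) : wt (a + b) C = wt a C + wt b C := by
  simp [wt, Set.indicator_add', Finset.sum_add_distrib]

lemma wt_smul (c : ℝ) (a : E → ℝ) (C : Set E) : wt (c • a) C = c * wt a C := by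
  simp only [wt, Finset.mul_sum]
  refine Finset.sum_congr rfl fun i _ => ?_
  by_cases hi : i ∈ C <;> simp [hi]

lemma wt_neg (a : E → ℝ) (C : Set E) : wt (-a) C = -wt a C := by
  have := wt_smul (-1) a C
  simpa using this

lemma wt_zero (C : Set E) : wt (0 : E → ℝ) C = 0 := by simp [wt]

lemma wt_const (c : ℝ) (B : Set E) : wt (fun _ : E => c) B = c * B.ncard := by
  have h1 : (fun _ : E => c) = (-c) • ne (univ : Set E) := by
    funext i
    simp [ne]
  rw [h1, wt_smul, wt_ne, inter_univ]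
  ring

lemma wt_exch (w : E → ℝ) {B : Set E} {e f : E} (hf : f ∈ B) (he : e ∉ B) :
    wt w (insert e (B \ {f})) = wt w B - w f + w e := by
  classical
  have hfe : f ≠ e := fun h => he (h ▸ hf)
  have key : ∀ i, (insert e (B \ {f})).indicator w i =
      B.indicator w i - (if i = f then w f else 0) + (if i = e then w e else 0) := by
    intro i
    by_cases h1 : i = f
    · subst h1
      have : i ∉ insert e (B \ {i}) := by
        intro h
        rcases h with h | h
        · exact hfe h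
        · exact h.2 rfl
      rw [Set.indicator_of_notMem this, Set.indicator_of_mem hf, if_pos rfl, if_neg hfe]
      ring
    · by_cases h2 : i = e
      · subst h2
        rw [Set.indicator_of_mem (mem_insert _ _), Set.indicator_of_notMem he, if_neg h1, if_pos rfl]
        ring
      · rw [if_neg h1, if_neg h2]
        by_cases h3 : i ∈ B
        · have h4 : i ∈ insert e (B \ {f}) := Or.inr ⟨h3, h1⟩
          rw [Set.indicator_of_mem h4, Set.indicator_of_mem h3]; ring
        · have : i ∉ insert e (B \ {f}) := by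
            intro h
            rcases h with h | h
            · exact h2 h
            · exact h3 h.1
          rw [Set.indicator_of_notMem this, Set.indicator_of_notMem h3]; ring
  unfold wt
  rw [Finset.sum_congr rfl fun i _ => key i, Finset.sum_add_distrib, Finset.sum_sub_distrib]
  simp

lemma continuous_wt (B : Set E) : Continuous fun x : E → ℝ => wt x B := by
  unfold wt
  refine continuous_finsetSum _ fun i _ => ?_
  by_cases h : i ∈ B
  · simpa [h] using continuous_apply i
  · simpa [h] using continuous_const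

/-- the weight as a linear form -/
noncomputable def wtL (B : Set E) : (E → ℝ) →ₗ[ℝ] ℝ where
  toFun x := wt x B
  map_add' a b := wt_add a b B
  map_smul' c a := by simpa using wt_smul c a B

@[simp] lemma wtL_apply (B : Set E) (x : E → ℝ) : wtL B x = wt x B := rfl

/-! ### exchange -/

lemma OK.exch {M : Matroid E} {r : ℕ} (hM : OK M r) {B : Set E} (hB : M.IsBase B) {e f : E}
    (he : e ∉ B) (hf : f ∈ M.fundCircuit e B) (hfe : f ≠ e) :
    f ∈ B ∧ M.IsBase (insert e (B \ {f})) := by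
  have h1 : f ∈ B := by
    rcases M.fundCircuit_subset_insert e B hf with h | h
    · exact absurd h hfe
    · exact h
  refine ⟨h1, ?_⟩
  have hecl : e ∈ M.closure B := by rw [hB.closure_eq, hM.ground]; exact mem_univ _
  have h2 := (hB.indep.mem_fundCircuit_iff hecl he).1 hf
  have h3 := hB.exchange_isBase_of_indep' h1 he h2
  rwa [← insert_sdiff_singleton_comm hfe.symm] at h3

lemma OK.fc {M : Matroid E} {r : ℕ} (hM : OK M r) {B : Set E} (hB : M.IsBase B) {e : E}
    (he : e ∉ B) : M.IsCircuit (M.fundCircuit e B) :=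
  hB.fundCircuit_isCircuit (by rw [hM.ground]; exact mem_univ _) he

lemma OK.exch2 {M : Matroid E} {r : ℕ} (hM : OK M r) {B : Set E} (hB : M.IsBase B) {e : E}
    (he : e ∈ B) {C : Set E} (hC : M.IsCircuit C) (heC : e ∈ C) :
    ∃ g ∈ C, g ≠ e ∧ g ∉ B ∧ M.IsBase (insert g (B \ {e})) := by
  have h1 : e ∈ M.closure (C \ {e}) := hC.mem_closure_sdiff_singleton_of_mem heC
  have h2 : e ∉ M.closure (B \ {e}) := hB.indep.notMem_closure_sdiff_of_mem he
  have h3 : ∃ g ∈ C \ {e}, g ∉ M.closure (B \ {e}) := by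
    by_contra hcon
    push Not at hcon
    exact h2 (M.closure_subset_closure_of_subset_closure (fun g hg => hcon g hg) h1)
  obtain ⟨g, hg, hgB⟩ := h3
  have h4 : g ∉ B := by
    intro h
    exact hgB (M.mem_closure_of_mem ⟨h, hg.2⟩ (by rw [hM.ground]; exact subset_univ _))
  refine ⟨g, hg.1, hg.2, h4, hB.exchange_isBase_of_indep h4 ?_⟩
  rw [(hB.indep.subset sdiff_subset).insert_indep_iff]
  left
  exact ⟨by rw [hM.ground]; exact mem_univ _, hgB⟩

/-! ### initial matroids -/

lemma ini_nonempty (M : Matroid E) (w : E → ℝ) : (Ini M w).Nonempty := by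
  obtain ⟨B0, hB0⟩ := M.exists_isBase
  obtain ⟨B, hB, h⟩ := Set.exists_min_image {B | M.IsBase B} (fun B => wt w B)
    (Set.toFinite _) ⟨B0, hB0⟩
  exact ⟨B, hB, fun B' hB' => h B' hB'⟩

lemma cn_iff {M : Matroid E} {K : Set (Set E)} (hK : ∀ B ∈ K, M.IsBase B) (x : E → ℝ) :
    x ∈ cn M K ↔ K ⊆ Ini M x :=
  ⟨fun h B hB => ⟨hK B hB, h B hB⟩, fun h B hB => (h hB).2⟩

lemma cn_iff' (M : Matroid E) (w x : E → ℝ) : x ∈ cn M (Ini M w) ↔ Ini M w ⊆ Ini M x :=
  cn_iff (fun _ hB => hB.1) x

lemma mem_cn_self (M : Matroid E) (w : E → ℝ) : w ∈ cn M (Ini M w) := (cn_iff' M w w).2 subset_rfl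

lemma ini_mem_base {M : Matroid E} {w : E → ℝ} {B : Set E} (h : B ∈ Ini M w) : M.IsBase B := h.1

/-- two members of `Ini` have the same weight -/
lemma ini_wt {M : Matroid E} {w : E → ℝ} {B B' : Set E} (h : B ∈ Ini M w) (h' : B' ∈ Ini M w) :
    wt w B = wt w B' := le_antisymm (h.2 _ h'.1) (h'.2 _ h.1)

/-- a base of the weight of a member of `Ini` is in `Ini` -/
lemma ini_of_le {M : Matroid E} {w : E → ℝ} {B B' : Set E} (h : B ∈ Ini M w) (hB' : M.IsBase B')
    (hw : wt w B' ≤ wt w B) : B' ∈ Ini M w :=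
  ⟨hB', fun B'' h'' => hw.trans (h.2 B'' h'')⟩

lemma ini_comb {M : Matroid E} {x y : E → ℝ} (h : (Ini M x ∩ Ini M y).Nonempty) {s t : ℝ}
    (hs : 0 < s) (ht : 0 < t) : Ini M (s • x + t • y) = Ini M x ∩ Ini M y := by
  obtain ⟨B0, hx0, hy0⟩ := h
  ext B
  constructor
  · intro hB
    have h1 := hB.2 B0 hx0.1
    rw [wt_add, wt_smul, wt_smul, wt_add, wt_smul, wt_smul] at h1
    have h2 := hx0.2 B hB.1
    have h3 := hy0.2 B hB.1
    have h4 : wt x B ≤ wt x B0 := by
      by_contra hcon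
      push Not at hcon
      have := mul_lt_mul_of_pos_left hcon hs
      have := mul_le_mul_of_nonneg_left h3 ht.le
      linarith
    have h5 : wt y B ≤ wt y B0 := by
      by_contra hcon
      push Not at hcon
      have := mul_lt_mul_of_pos_left hcon ht
      have := mul_le_mul_of_nonneg_left h2 hs.le
      linarith
    exact ⟨ini_of_le hx0 hB.1 h4, ini_of_le hy0 hB.1 h5⟩
  · intro hB
    refine ⟨hB.1.1, fun B' hB' => ?_⟩
    rw [wt_add, wt_smul, wt_smul, wt_add, wt_smul, wt_smul]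
    have h2 := mul_le_mul_of_nonneg_left (hB.1.2 B' hB') hs.le
    have h3 := mul_le_mul_of_nonneg_left (hB.2.2 B' hB') ht.le
    linarith

lemma ini_smul {M : Matroid E} {x : E → ℝ} {s : ℝ} (hs : 0 < s) : Ini M (s • x) = Ini M x := by
  ext B
  constructor
  · intro h
    refine ⟨h.1, fun B' hB' => ?_⟩
    have := h.2 B' hB'
    rw [wt_smul, wt_smul] at this
    exact le_of_mul_le_mul_left this hs
  · intro h
    refine ⟨h.1, fun B' hB' => ?_⟩
    rw [wt_smul, wt_smul]
    exact mul_le_mul_of_nonneg_left (h.2 B' hB') hs.le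

lemma ini_add {M : Matroid E} {x y : E → ℝ} (h : (Ini M x ∩ Ini M y).Nonempty) :
    Ini M (x + y) = Ini M x ∩ Ini M y := by
  have := ini_comb h one_pos one_pos
  simpa using this

/-- `Ini M y ⊆ Ini M x`: all points `s x + t y`, `s ≥ 0`, `t > 0`, have the same `Ini` as `y` -/
lemma ini_seg {M : Matroid E} {x y : E → ℝ} (h : Ini M y ⊆ Ini M x) {s t : ℝ}
    (hs : 0 ≤ s) (ht : 0 < t) : Ini M (s • x + t • y) = Ini M y := by
  rcases hs.eq_or_lt with hs | hs
  · rw [← hs, zero_smul, zero_add, ini_smul ht]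
  · have h1 : Ini M x ∩ Ini M y = Ini M y := inter_eq_right.2 h
    rw [ini_comb (by rw [h1]; exact ini_nonempty M y) hs ht, h1]

/-- a vector of `LinK {bases}` does not change `Ini` -/
lemma ini_lin {M : Matroid E} {u : E → ℝ} (hu : u ∈ LinK {B | M.IsBase B}) (y : E → ℝ) :
    Ini M (y + u) = Ini M y := by
  ext B
  constructor
  · intro h
    refine ⟨h.1, fun B' hB' => ?_⟩
    have := h.2 B' hB'
    rw [wt_add, wt_add, hu B h.1 B' hB'] at this
    linarith
  · intro h
    refine ⟨h.1, fun B' hB' => ?_⟩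
    have := h.2 B' hB'
    rw [wt_add, wt_add, hu B h.1 B' hB']
    linarith

lemma self_mem_LinK (M : Matroid E) (x : E → ℝ) : x ∈ LinK (Ini M x) :=
  fun _ h _ h' => ini_wt h h'

lemma LinK_mono {K K' : Set (Set E)} (h : K ⊆ K') : LinK K' ≤ LinK K :=
  fun _ hv B hB B' hB' => hv B (h hB) B' (h hB')

lemma lin_le (M : Matroid E) (x : E → ℝ) : LinK {B | M.IsBase B} ≤ LinK (Ini M x) :=
  LinK_mono fun _ h => h.1

/-! ### the cone `cn` -/

lemma isClosed_cn (M : Matroid E) (K : Set (Set E)) : IsClosed (cn M K) := by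
  have : cn M K = ⋂ B ∈ K, ⋂ B' ∈ {B' | M.IsBase B'}, {x | wt x B ≤ wt x B'} := by
    ext x; simp [cn]
  rw [this]
  exact isClosed_biInter fun B _ => isClosed_biInter fun B' _ =>
    isClosed_le (continuous_wt B) (continuous_wt B')

lemma cn_add {M : Matroid E} {K : Set (Set E)} {x y : E → ℝ} (hx : x ∈ cn M K) (hy : y ∈ cn M K) :
    x + y ∈ cn M K := by
  intro B hB B' hB'
  rw [wt_add, wt_add]
  exact add_le_add (hx B hB B' hB') (hy B hB B' hB')

lemma cn_smul {M : Matroid E} {K : Set (Set E)} {x : E → ℝ} (hx : x ∈ cn M K) {s : ℝ}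
    (hs : 0 ≤ s) : s • x ∈ cn M K := by
  intro B hB B' hB'
  rw [wt_smul, wt_smul]
  exact mul_le_mul_of_nonneg_left (hx B hB B' hB') hs

lemma cn_zero (M : Matroid E) (K : Set (Set E)) : (0 : E → ℝ) ∈ cn M K := by
  intro B _ B' _
  rw [wt_zero, wt_zero]

lemma convex_cn (M : Matroid E) (K : Set (Set E)) : Convex ℝ (cn M K) := by
  intro x hx y hy a b ha hb _
  exact cn_add (cn_smul hx ha) (cn_smul hy hb)

/-- `L ⊆ cn M K` -/
lemma lin_sub_cn {M : Matroid E} {K : Set (Set E)} (hK : ∀ B ∈ K, M.IsBase B) {u : E → ℝ}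
    (hu : u ∈ LinK {B | M.IsBase B}) : u ∈ cn M K :=
  fun B hB B' hB' => (hu B (hK B hB) B' hB').le

/-- a vector `u` with `u, -u ∈ cn M K`, `K ≠ ∅`, is in `L` -/
lemma lin_of_cn {M : Matroid E} {K : Set (Set E)} (hKn : K.Nonempty)
    {u : E → ℝ} (h1 : u ∈ cn M K) (h2 : -u ∈ cn M K) : u ∈ LinK {B | M.IsBase B} := by
  obtain ⟨B0, hB0⟩ := hKn
  have key : ∀ B, M.IsBase B → wt u B = wt u B0 := by
    intro B hB
    have a := h1 B0 hB0 B hB
    have b := h2 B0 hB0 B hB
    rw [wt_neg, wt_neg] at b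
    linarith
  intro B hB B' hB'
  rw [key B hB, key B' hB']

/-- if `x ∈ cn M (Ini M w)` then `cn M (Ini M w) ⊆ LinK (Ini M w)` contains `x` -/
lemma cn_sub_LinK {M : Matroid E} {w x : E → ℝ} (hx : x ∈ cn M (Ini M w)) : x ∈ LinK (Ini M w) :=
  LinK_mono ((cn_iff' M w x).1 hx) (self_mem_LinK M x)

/-! ### small parameters -/

lemma exists_eps {ι : Type*} [Finite ι] (a b : ι → ℝ) (ha : ∀ i, 0 < a i) :
    ∃ ε : ℝ, 0 < ε ∧ ∀ t : ℝ, |t| ≤ ε → ∀ i, 0 < a i + t * b i := by
  have h : ∀ᶠ t : ℝ in 𝓝 0, ∀ i, 0 < a i + t * b i := by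
    rw [Filter.eventually_all]
    intro i
    have hc : ContinuousAt (fun t : ℝ => a i + t * b i) 0 := by fun_prop
    have := hc.eventually (lt_mem_nhds (a := (0 : ℝ)) (by simpa using ha i))
    exact this
  obtain ⟨ε, hε, h⟩ := Metric.eventually_nhds_iff.1 h
  refine ⟨ε / 2, by positivity, fun t ht => h ?_⟩
  rw [Real.dist_eq, sub_zero]
  linarith

/-- linear inequalities: strict ones survive a small perturbation -/
lemma exists_eps_lin {ι : Type*} [Finite ι] (f : ι → ((E → ℝ) →ₗ[ℝ] ℝ)) (x v : E → ℝ) :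
    ∃ ε : ℝ, 0 < ε ∧ ∀ t : ℝ, |t| ≤ ε → ∀ i, 0 < f i x → 0 < f i (x + t • v) := by
  obtain ⟨ε, hε, h⟩ := exists_eps (ι := {i // 0 < f i x}) (fun i => f i.1 x) (fun i => f i.1 v)
    (fun i => i.2)
  refine ⟨ε, hε, fun t ht i hi => ?_⟩
  have := h t ht ⟨i, hi⟩
  simpa [map_add, map_smul, smul_eq_mul] using this

/-- for small `t > 0` the bases of minimal weight for `w + t x` are those members of `Ini M w` which
have minimal `x`-weight among the members of `Ini M w` -/
lemma exists_eps_ini (M : Matroid E) (w x : E → ℝ) : ∃ ε : ℝ, 0 < ε ∧ ∀ t : ℝ, 0 < t → t ≤ ε →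
    Ini M (w + t • x) = {B | B ∈ Ini M w ∧ ∀ B' ∈ Ini M w, wt x B ≤ wt x B'} := by
  classical
  obtain ⟨ε, hε, h⟩ := exists_eps_lin
    (fun p : Set E × Set E => wtL p.2 - wtL p.1) w x
  refine ⟨ε, hε, fun t ht hte => ?_⟩
  have h' := h t (by rwa [abs_of_pos ht])
  have key : ∀ B B' : Set E, wt w B < wt w B' → wt (w + t • x) B < wt (w + t • x) B' := by
    intro B B' hBB
    have := h' (B, B') (by simpa using hBB)
    simpa using this
  ext B
  constructor
  · intro hB
    have h1 : B ∈ Ini M w := by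
      refine ⟨hB.1, fun B' hB' => ?_⟩
      by_contra hcon
      push Not at hcon
      exact absurd (hB.2 B' hB') (not_le.2 (key _ _ hcon))
    refine ⟨h1, fun B' hB' => ?_⟩
    have h2 := hB.2 B' hB'.1
    rw [wt_add, wt_smul, wt_add, wt_smul, ini_wt h1 hB'] at h2
    have h3 : t * wt x B ≤ t * wt x B' := by linarith
    exact le_of_mul_le_mul_left h3 ht
  · rintro ⟨h1, h2⟩
    refine ⟨h1.1, fun B' hB' => ?_⟩
    by_cases h3 : B' ∈ Ini M w
    · rw [wt_add, wt_smul, wt_add, wt_smul, ini_wt h1 h3]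
      have := mul_le_mul_of_nonneg_left (h2 B' h3) ht.le
      linarith
    · apply le_of_lt
      apply key
      by_contra hcon
      push Not at hcon
      exact h3 (ini_of_le h1 hB' hcon)

end Run7.h480.BF
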