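import Mathlib

/-!
Project BF (problem MP_b9d149_co): every fan structure on the Bergman fan of a loopless matroid of
rank `r` is `(r - l)`-connected through codimension one (`l` the dimension of its lineality space).
Definitions.
-/

set_option autoImplicit false

open Set Module

namespace Run7.h480.BF

variable {E : Type} [Fintype E]

/-! ### Public definitions -/

/-- The Bergman fan of `M`: for every circuit the maximum of `w` on it is attained at least twice. -/
def berg (M : Matroid E) : Set (E → ℝ) :=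
  {w | ∀ C, M.IsCircuit C → ∃ e ∈ C, ∃ f ∈ C, e ≠ f ∧ w e = w f ∧ ∀ g ∈ C, w g ≤ w e}

/-- A polyhedral cone: a finite intersection of closed linear half spaces. -/
def IsPoly (σ : Set (E → ℝ)) : Prop :=
  ∃ (n : ℕ) (f : Fin n → ((E → ℝ) →ₗ[ℝ] ℝ)), σ = {x | ∀ i, 0 ≤ f i x}

/-- `τ` is a face of `σ` (`σ` itself is the face with `g = 0`). -/
def IsFace (τ σ : Set (E → ℝ)) : Prop :=
  ∃ g : (E → ℝ) →ₗ[ℝ] ℝ, (∀ x ∈ σ, 0 ≤ g x) ∧ τ = {x | x ∈ σ ∧ g x = 0}

/-- The dimension of a cone. -/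
noncomputable def dim (σ : Set (E → ℝ)) : ℕ := finrank ℝ (Submodule.span ℝ σ)

/-- Polyhedral fans. -/
structure IsFan (S : Set (Set (E → ℝ))) : Prop where
  fin : S.Finite
  poly : ∀ σ ∈ S, IsPoly σ
  face : ∀ σ ∈ S, ∀ τ, IsFace τ σ → τ ∈ S
  inter : ∀ σ ∈ S, ∀ τ ∈ S, IsFace (σ ∩ τ) σ

/-- The lineality space of a fan: the largest subspace `L` with `σ + L = σ` for all cones. -/
def lin (S : Set (Set (E → ℝ))) : Set (E → ℝ) :=
  {v | ∀ σ ∈ S, ∀ x ∈ σ, ∀ t : ℝ, x + t • v ∈ σ}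

/-- Facets and ridges of a pure fan of dimension `r`. -/
def IsFacet (r : ℕ) (S : Set (Set (E → ℝ))) (σ : Set (E → ℝ)) : Prop := σ ∈ S ∧ dim σ = r

/-- Ridges. -/
def IsRidge (r : ℕ) (S : Set (Set (E → ℝ))) (ρ : Set (E → ℝ)) : Prop := ρ ∈ S ∧ dim ρ + 1 = r

/-- Two facets outside `R` sharing a ridge which is contained in no member of `R`. -/
def Adj (r : ℕ) (S R : Set (Set (E → ℝ))) (a b : Set (E → ℝ)) : Prop :=
  (IsFacet r S a ∧ a ∉ R) ∧ (IsFacet r S b ∧ b ∉ R) ∧
    ∃ ρ, IsRidge r S ρ ∧ ρ ⊆ a ∧ ρ ⊆ b ∧ ∀ c ∈ R, ¬ ρ ⊆ c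

/-- `k`-connected through codimension one: the facet-ridge hypergraph stays connected after deleting
fewer than `k` facets together with all the ridges they contain. -/
def KConn (r k : ℕ) (S : Set (Set (E → ℝ))) : Prop :=
  ∀ R : Set (Set (E → ℝ)), (∀ σ ∈ R, IsFacet r S σ) → R.ncard < k →
    ∀ σ τ, IsFacet r S σ → σ ∉ R → IsFacet r S τ → τ ∉ R → Relation.ReflTransGen (Adj r S R) σ τ

/-- The weight of a set of elements. -/
noncomputable def wt (w : E → ℝ) (B : Set E) : ℝ := ∑ i, B.indicator w i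

/-- The bases of the initial matroid `M_w`: the bases of `M` of minimal `w`-weight. (With the
convention `max attained twice` in `berg` the initial matroid is the one of the bases of MINIMAL
weight; it is loopless exactly for `w ∈ berg M`.) -/
def Ini (M : Matroid E) (w : E → ℝ) : Set (Set E) :=
  {B | M.IsBase B ∧ ∀ B', M.IsBase B' → wt w B ≤ wt w B'}

/-- The coarse structure on `berg M`: `w, w'` lie in the relative interior of one cone iff
`M_w = M_w'`. -/
def coarse (M : Matroid E) : Set (Set (E → ℝ)) :=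
  {σ | ∃ w ∈ berg M, σ = closure {v | v ∈ berg M ∧ Ini M v = Ini M w}}

/-! ### Internal definitions -/

/-- A loopless matroid on all of `E` of rank `r`. -/
structure OK (M : Matroid E) (r : ℕ) : Prop where
  ground : M.E = univ
  nonloop : ∀ e, M.IsNonloop e
  rank : ∀ B, M.IsBase B → B.ncard = r

/-- A fan structure on `berg M`. -/
structure FanOn (M : Matroid E) (S : Set (Set (E → ℝ))) : Prop where
  fan : IsFan S
  supp : ⋃₀ S = berg M

/-- `κ` is the carrier of `x`: the smallest cone of `S` containing `x`. -/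
structure Car (S : Set (Set (E → ℝ))) (x : E → ℝ) (κ : Set (E → ℝ)) : Prop where
  mem : κ ∈ S
  x_mem : x ∈ κ
  min : ∀ σ ∈ S, x ∈ σ → κ ⊆ σ

/-- The cone of all `x` whose initial matroid has all members of `K` as bases. -/
def cn (M : Matroid E) (K : Set (Set E)) : Set (E → ℝ) :=
  {x | ∀ B ∈ K, ∀ B', M.IsBase B' → wt x B ≤ wt x B'}

/-- The space of all `v` which give the same weight to all members of `K`. -/
def LinK (K : Set (Set E)) : Submodule ℝ (E → ℝ) where
  carrier := {v | ∀ B ∈ K, ∀ B' ∈ K, wt v B = wt v B'}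
  add_mem' := by
    intro a b ha hb B hB B' hB'
    have h : ∀ C : Set E, wt (a + b) C = wt a C + wt b C := by
      intro C; simp [wt, Set.indicator_add', Finset.sum_add_distrib]
    rw [h, h, ha B hB B' hB', hb B hB B' hB']
  zero_mem' := by intro B _ B' _; simp [wt]
  smul_mem' := by
    intro c a ha B hB B' hB'
    have h : ∀ C : Set E, wt (c • a) C = c * wt a C := by
      intro C
      simp only [wt, Finset.mul_sum]
      refine Finset.sum_congr rfl fun i _ => ?_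
      by_cases hi : i ∈ C <;> simp [hi]
    rw [h, h, ha B hB B' hB']

/-- `N` is the initial matroid of `M` at `w`. -/
def IniMat (M N : Matroid E) (w : E → ℝ) : Prop := ∀ B, N.IsBase B ↔ B ∈ Ini M w

/-- Two comparable flats `A, B` with `ne A, ne B` outside `cn M K`. -/
def Cmp (M : Matroid E) (K : Set (Set E)) (ne : Set E → (E → ℝ)) (A B : Set E) : Prop :=
  (M.IsFlat A ∧ ne A ∉ cn M K) ∧ (M.IsFlat B ∧ ne B ∉ cn M K) ∧ (A ⊆ B ∨ B ⊆ A)

/-- The indicator vector of `F`, negated. -/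
noncomputable def ne (F : Set E) : E → ℝ := fun i => -(F.indicator (fun _ => (1 : ℝ)) i)

/-- The tangent cone of `σ` at `v`. -/
def tan (σ : Set (E → ℝ)) (v : E → ℝ) : Set (E → ℝ) := {x | ∃ ε : ℝ, 0 < ε ∧ v + ε • x ∈ σ}

/-- The star of `v` in `S`. -/
def star (S : Set (Set (E → ℝ))) (v : E → ℝ) : Set (Set (E → ℝ)) :=
  {τ | ∃ σ ∈ S, v ∈ σ ∧ τ = tan σ v}

/-- Two rays of `S` (cones of dimension `dim (lin S) + 1`), none of them contained in `T`, which lie
in a common cone of dimension at most `dim (lin S) + 2`. -/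
def Link (S : Set (Set (E → ℝ))) (T a b : Set (E → ℝ)) : Prop :=
  (a ∈ S ∧ dim a = dim (lin S) + 1 ∧ ¬ a ⊆ T) ∧ (b ∈ S ∧ dim b = dim (lin S) + 1 ∧ ¬ b ⊆ T) ∧
    ∃ u ∈ S, dim u ≤ dim (lin S) + 2 ∧ a ⊆ u ∧ b ⊆ u

/-- The cone of finitely many inequalities. -/
def Cf {n : ℕ} (f : Fin n → ((E → ℝ) →ₗ[ℝ] ℝ)) : Set (E → ℝ) := {x | ∀ i, 0 ≤ f i x}

/-- The indices of the inequalities which are tight at `x`. -/
def Zf {n : ℕ} (f : Fin n → ((E → ℝ) →ₗ[ℝ] ℝ)) (x : E → ℝ) : Set (Fin n) := {i | f i x = 0}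

/-- The common kernel of the inequalities with index in `Z`. -/
def Kf {n : ℕ} (f : Fin n → ((E → ℝ) →ₗ[ℝ] ℝ)) (Z : Set (Fin n)) : Submodule ℝ (E → ℝ) :=
  ⨅ i ∈ Z, LinearMap.ker (f i)

/-- The face of the cone `Cf f` with `y` in its relative interior. -/
def Ff {n : ℕ} (f : Fin n → ((E → ℝ) →ₗ[ℝ] ℝ)) (y : E → ℝ) : Set (E → ℝ) :=
  {z | z ∈ Cf f ∧ Zf f y ⊆ Zf f z}

/-- The dimension of the face of `x`. -/
noncomputable def Df {n : ℕ} (f : Fin n → ((E → ℝ) →ₗ[ℝ] ℝ)) (x : E → ℝ) : ℕ :=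
  finrank ℝ (Kf f (Zf f x))

end Run7.h480.BF
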